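import Pool.Agent.H39Z.SSP.Defs
import Pool.Agent.NPC.Dec
import Pool.Agent.H671R2.PolyAuto
import Pool.Agent.H687R2.IntPoly

/-!
# Subset products with mandatory factors
-/

namespace Pool.Agent.H39Z.SSP

open Pool.Agent.NPC

variable {G : Type*} [Group G] {n : ℕ}

instance finTDec (n : ℕ) : TDec (Fin n) :=
  TDec.of (fun i : Fin n => (i : ℕ)) (fun k => if h : k < n then some ⟨k, h⟩ else none)
    (fun _ => rfl) (fun a => by simp) (fun b a h => by
      split_ifs at h with h1
      cases h; rfl) (by
      have h1 : Poly (fun k : ℕ => if k < n then some k else none) := by fun_prop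
      refine Poly.of_toT (h1.toT'.congr fun k => ?_)
      split_ifs <;> rfl)

@[simp] theorem evalWord_nil (x : Fin n → G) : evalWord x [] = 1 := rfl

@[simp] theorem evalWord_append (x : Fin n → G) (u v : Word n) :
    evalWord x (u ++ v) = evalWord x u * evalWord x v := by
  simp [evalWord]

theorem evalWord_cons (x : Fin n → G) (l : Fin n × Bool) (v : Word n) :
    evalWord x (l :: v) = (if l.2 = true then x l.1 else (x l.1)⁻¹) * evalWord x v := by
  simp [evalWord]

/-- The formal inverse of a word. -/
def invW (w : Word n) : Word n := (w.map fun l => (l.1, !l.2)).reverse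

@[simp] theorem evalWord_invW (x : Fin n → G) (w : Word n) :
    evalWord x (invW w) = (evalWord x w)⁻¹ := by
  induction w with
  | nil => simp [invW]
  | cons l w ih =>
    have : invW (l :: w) = invW w ++ [(l.1, !l.2)] := by simp [invW]
    rw [this, evalWord_append, ih, evalWord_cons, evalWord_cons, evalWord_nil, mul_one, mul_inv_rev]
    rcases l with ⟨i, _ | _⟩ <;> simp

@[simp] theorem length_invW (w : Word n) : (invW w).length = w.length := by simp [invW]

@[fun_prop] theorem invW_poly {α : Type} [TEnc α] {w : α → Word n} (hw : Poly w) :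
    Poly (fun a => invW (w a)) := by
  unfold invW
  fun_prop

theorem evalWord_flatMap {α : Type*} (x : Fin n → G) (l : List α) (f : α → Word n) :
    evalWord x (l.flatMap f) = (l.map fun a => evalWord x (f a)).prod := by
  induction l with
  | nil => simp
  | cons a l ih => simp [ih]

theorem exists_word (x : Fin n → G) (hx : Subgroup.closure (Set.range x) = ⊤) (g : G) :
    ∃ w, evalWord x w = g := by
  have hg : g ∈ Subgroup.closure (Set.range x) := hx ▸ Subgroup.mem_top g
  induction hg using Subgroup.closure_induction with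
  | mem z hz => obtain ⟨i, rfl⟩ := hz; exact ⟨[(i, true)], by simp [evalWord]⟩
  | one => exact ⟨[], rfl⟩
  | mul a b _ _ ha hb =>
    obtain ⟨u, rfl⟩ := ha
    obtain ⟨v, rfl⟩ := hb
    exact ⟨u ++ v, evalWord_append x u v⟩
  | inv a _ ha =>
    obtain ⟨u, rfl⟩ := ha
    exact ⟨invW u, evalWord_invW x u⟩

/-- The products of sublists containing all factors marked `true`. -/
def Reach : List (Bool × G) → G → Prop
  | [], h => h = 1
  | p :: l, h => (∃ k, Reach l k ∧ h = p.2 * k) ∨ (p.1 = false ∧ Reach l h)

theorem reach_append {l l' : List (Bool × G)} {h : G} :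
    Reach (l ++ l') h ↔ ∃ a b, Reach l a ∧ Reach l' b ∧ h = a * b := by
  induction l generalizing h with
  | nil =>
    simp only [List.nil_append, Reach]
    constructor
    · intro hh; exact ⟨1, h, rfl, hh, by simp⟩
    · rintro ⟨a, b, rfl, hb, rfl⟩; simpa using hb
  | cons p l ih =>
    simp only [List.cons_append, Reach, ih]
    constructor
    · rintro (⟨k, ⟨a, b, ha, hb, rfl⟩, rfl⟩ | ⟨hp, a, b, ha, hb, rfl⟩)
      · exact ⟨p.2 * a, b, Or.inl ⟨a, ha, rfl⟩, hb, by rw [mul_assoc]⟩
      · exact ⟨a, b, Or.inr ⟨hp, ha⟩, hb, rfl⟩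
    · rintro ⟨a, b, ⟨k, hk, rfl⟩ | ⟨hp, ha⟩, hb, rfl⟩
      · exact Or.inl ⟨k * b, ⟨k, b, hk, hb, rfl⟩, by rw [mul_assoc]⟩
      · exact Or.inr ⟨hp, a, b, ha, hb, rfl⟩

theorem eps_iff {α : Type*} (f : α → G) (L : List α) (g : G) :
    (∃ ε : Fin L.length → ℕ, (∀ i, ε i = 0 ∨ ε i = 1) ∧
      g = (List.ofFn fun i => f (L.get i) ^ ε i).prod) ↔
    Reach (L.map fun u => (false, f u)) g := by
  induction L generalizing g with
  | nil => simp [Reach]
  | cons a L ih =>
    simp only [List.map_cons, Reach, ← ih]
    constructor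
    · rintro ⟨ε, hε, rfl⟩
      have e : (List.ofFn fun i : Fin (a :: L).length => f ((a :: L).get i) ^ ε i).prod =
          f a ^ ε (0 : Fin (L.length + 1)) *
            (List.ofFn fun i : Fin L.length => f (L.get i) ^ ε i.succ).prod := by
        change (List.ofFn fun i : Fin (L.length + 1) => f ((a :: L).get i) ^ ε i).prod = _
        rw [List.ofFn_succ, List.prod_cons]
        rfl
      rw [e]
      rcases hε (0 : Fin (L.length + 1)) with h | h
      · right
        refine ⟨trivial, fun i => ε i.succ, fun i => hε _, ?_⟩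
        rw [h, pow_zero, one_mul]
      · left
        refine ⟨_, ⟨fun i => ε i.succ, fun i => hε _, rfl⟩, ?_⟩
        rw [h, pow_one]
    · have e : ∀ (c : ℕ) (ε : Fin L.length → ℕ), (List.ofFn fun i : Fin (a :: L).length =>
          f ((a :: L).get i) ^ (Fin.cons c ε : Fin (L.length + 1) → ℕ) i).prod =
          f a ^ c * (List.ofFn fun i : Fin L.length => f (L.get i) ^ ε i).prod := by
        intro c ε
        change (List.ofFn fun i : Fin (L.length + 1) =>
          f ((a :: L).get i) ^ (Fin.cons c ε : Fin (L.length + 1) → ℕ) i).prod = _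
        rw [List.ofFn_succ, List.prod_cons]
        rfl
      rintro (⟨k, ⟨ε, hε, rfl⟩, rfl⟩ | ⟨-, ε, hε, rfl⟩)
      · refine ⟨(Fin.cons 1 ε : Fin (L.length + 1) → ℕ), fun i => ?_, ?_⟩
        · refine Fin.cases (motive := fun i : Fin (L.length + 1) =>
            (Fin.cons 1 ε : Fin (L.length + 1) → ℕ) i = 0 ∨
            (Fin.cons 1 ε : Fin (L.length + 1) → ℕ) i = 1) (Or.inr rfl) (fun j => hε j) i
        · rw [e, pow_one]
      · refine ⟨(Fin.cons 0 ε : Fin (L.length + 1) → ℕ), fun i => ?_, ?_⟩
        · refine Fin.cases (motive := fun i : Fin (L.length + 1) =>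
            (Fin.cons 0 ε : Fin (L.length + 1) → ℕ) i = 0 ∨
            (Fin.cons 0 ε : Fin (L.length + 1) → ℕ) i = 1) (Or.inl rfl) (fun j => hε j) i
        · rw [e, pow_zero, one_mul]

theorem subsetSum_iff (x : Fin n → G) (I : List (Word n) × Word n) :
    SubsetSum x I ↔ Reach (I.1.map fun u => (false, evalWord x u)) (evalWord x I.2) :=
  eps_iff (evalWord x) I.1 _

/-! ### Removing the mandatory factors -/

/-- One step of the conversion. -/
def cstep (s : Word n × List (Word n)) (p : Bool × Word n) : Word n × List (Word n) :=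
  if p.1 = true then (s.1 ++ p.2, s.2) else (s.1, s.2 ++ [s.1 ++ p.2 ++ invW s.1])

/-- The conversion. -/
def conv (l : List (Bool × Word n)) : List (Word n) × Word n :=
  ((l.foldl cstep ([], [])).2, invW (l.foldl cstep ([], [])).1)

theorem cstep_spec (x : Fin n → G) (l : List (Bool × Word n)) :
    ∀ (s : Word n × List (Word n)) (g : G),
    Reach ((l.foldl cstep s).2.map fun u => (false, evalWord x u))
      (g * (evalWord x (l.foldl cstep s).1)⁻¹) ↔
    ∃ a h, Reach (s.2.map fun u => (false, evalWord x u)) a ∧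
      Reach (l.map fun p => (p.1, evalWord x p.2)) h ∧ g = a * evalWord x s.1 * h := by
  induction l with
  | nil =>
    intro s g
    simp only [List.foldl_nil, List.map_nil, Reach]
    constructor
    · intro h; exact ⟨_, 1, h, rfl, by simp⟩
    · rintro ⟨a, h, ha, rfl, rfl⟩; simpa using ha
  | cons p l ih =>
    intro s g
    rw [List.foldl_cons, ih]
    rcases p with ⟨_ | _, w⟩
    · simp only [cstep, Bool.false_eq_true, if_false, List.map_append, reach_append, List.map_cons,
        List.map_nil, Reach, evalWord_append, evalWord_invW, true_and]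
      constructor
      · rintro ⟨_, h, ⟨a, b, ha, ⟨k, rfl, rfl⟩ | rfl, rfl⟩, hh, rfl⟩
        · exact ⟨a, _, ha, Or.inl ⟨h, hh, rfl⟩, by group⟩
        · exact ⟨a, _, ha, Or.inr hh, by group⟩
      · rintro ⟨a, _, ha, ⟨h, hh, rfl⟩ | hh, rfl⟩
        · exact ⟨_, h, ⟨a, _, ha, Or.inl ⟨1, rfl, rfl⟩, rfl⟩, hh, by group⟩
        · exact ⟨_, _, ⟨a, 1, ha, Or.inr rfl, rfl⟩, hh, by group⟩
    · simp only [cstep, if_true, List.map_cons, Reach, evalWord_append, Bool.true_eq_false,
        false_and, or_false]
      constructor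
      · rintro ⟨a, h, ha, hh, rfl⟩
        exact ⟨a, _, ha, ⟨h, hh, rfl⟩, by group⟩
      · rintro ⟨a, _, ha, ⟨h, hh, rfl⟩, rfl⟩
        exact ⟨a, h, ha, hh, by group⟩

theorem conv_spec (x : Fin n → G) (l : List (Bool × Word n)) :
    SubsetSum x (conv l) ↔ Reach (l.map fun p => (p.1, evalWord x p.2)) 1 := by
  rw [subsetSum_iff]
  have := cstep_spec x l ([], []) 1
  simp only [one_mul, List.map_nil, Reach, evalWord_nil, mul_one] at this
  simp only [conv, evalWord_invW]
  rw [this]
  constructor
  · rintro ⟨_, h, rfl, hh, h1⟩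
    rw [one_mul] at h1
    rwa [h1]
  · intro h; exact ⟨1, 1, rfl, h, by simp⟩

theorem sz_invW_le (w : Word n) : sz (invW w) ≤ 3 * sz w := by
  unfold invW
  rw [sz_reverse]
  induction w with
  | nil => simp
  | cons l w ih =>
    rcases l with ⟨i, b⟩
    have h1 := sz_bool_le (!b)
    have h2 := sz_pos b
    have h3 := sz_pos i
    simp only [List.map_cons, sz_list_cons, sz_pair] at ih ⊢
    omega

theorem cstep_sz (l : List (Bool × Word n)) : ∀ (s : Word n × List (Word n)) (B : ℕ),
    sz s.1 + sz l ≤ B →
    sz (l.foldl cstep s).1 ≤ B ∧ sz (l.foldl cstep s).2 ≤ sz s.2 + l.length * (5 * B + 1) := by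
  induction l with
  | nil => intro s B h; simp; omega
  | cons p l ih =>
    intro s B h
    rw [List.foldl_cons]
    rcases p with ⟨_ | _, w⟩
    · have h1 := sz_invW_le s.1
      have h2 := sz_append (s.1 ++ w) (invW s.1)
      have h3 := sz_append s.1 w
      have h4 := sz_append s.2 [s.1 ++ w ++ invW s.1]
      simp only [sz_list_cons, sz_pair, sz_list_nil] at h h4
      obtain ⟨h5, h6⟩ := ih (cstep s (false, w)) B (by simp [cstep]; omega)
      refine ⟨h5, h6.trans ?_⟩
      simp only [cstep, Bool.false_eq_true, if_false, List.length_cons]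
      nlinarith
    · have h3 := sz_append s.1 w
      simp only [sz_list_cons, sz_pair] at h
      obtain ⟨h5, h6⟩ := ih (cstep s (true, w)) B (by simp [cstep]; omega)
      refine ⟨h5, h6.trans ?_⟩
      simp only [cstep, if_true, List.length_cons]
      nlinarith

theorem conv_poly : Poly (conv (n := n)) := by
  have h : Poly (fun l : List (Bool × Word n) => l.foldl cstep ([], [])) := by
    refine Poly.foldl (F := fun _ s p => cstep s p) Poly.id (NPC.Poly.const _) ?_
      (Polynomial.X * (Polynomial.C 5 * Polynomial.X + Polynomial.C 7) + Polynomial.C 3) ?_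
    · unfold cstep
      fun_prop
    · intro l k hk
      have h1 := Poly.sz_take_le l k
      obtain ⟨h2, h3⟩ := cstep_sz (l.take k) ([], []) (sz l + 1) (by simp; omega)
      have h4 := length_lt_sz (l.take k)
      change sz (((l.take k).foldl cstep ([], [])).1, ((l.take k).foldl cstep ([], [])).2) ≤ _
      rw [sz_pair]
      simp only [sz_list_nil, Polynomial.eval_add, Polynomial.eval_mul, Polynomial.eval_X,
        Polynomial.eval_C] at h3 ⊢
      nlinarith
  unfold conv
  fun_prop

end Pool.Agent.H39Z.SSP
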