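import Pool.Agent.H39Z.SSP.Struct
import Pool.Agent.H39Z.SSP.Reach

/-!
# The word problem of a metabelian group as an ideal membership problem
-/

namespace Pool.Agent.H39Z.SSP

open MvPolynomial

variable {G : Type*} [Group G] {n : ℕ}

/-- The variables. -/
abbrev Vr (n : ℕ) : Type := (Fin n × Bool) × Bool

/-- The polynomial attached to a word (a form of the Fox derivatives). -/
noncomputable def fox : Word n → MvPolynomial (Vr n) ℤ
  | [] => 0
  | l :: w => X (l, true) + X (l, false) * fox w

theorem exists_ideal_of {R V : Type*} [CommRing R] [AddCommGroup V] [Module R V] (x : Fin n → G)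
    (u : G →* R) (δ : G → V) (hδ : ∀ g h, δ (g * h) = δ g + u g • δ h)
    (hinj : ∀ g, u g = 1 → δ g = 0 → g = 1) :
    ∃ I : Ideal (MvPolynomial (Vr n) ℤ), ∀ w, evalWord x w = 1 ↔ fox w ∈ I := by
  let _ : Module Rᵐᵒᵖ V := Module.compHom V ((RingHom.id R).fromOpposite mul_comm)
  have : IsCentralScalar R V := ⟨fun _ _ => rfl⟩
  let y : Fin n × Bool → G := fun l => if l.2 = true then x l.1 else (x l.1)⁻¹
  let Ψ : MvPolynomial (Vr n) ℤ →+* TrivSqZeroExt R V :=
    eval₂Hom (Int.castRingHom _) fun v =>
      if v.2 = true then TrivSqZeroExt.inl (u (y v.1) - 1) + TrivSqZeroExt.inr (δ (y v.1))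
      else TrivSqZeroExt.inl (u (y v.1))
  have hδ1 : δ 1 = 0 := by
    have := hδ 1 1
    rw [one_mul, map_one, one_smul] at this
    exact left_eq_add.1 this
  have key : ∀ w, Ψ (fox w) = TrivSqZeroExt.inl (u (evalWord x w) - 1) +
      TrivSqZeroExt.inr (δ (evalWord x w)) := by
    intro w
    induction w with
    | nil => simp [fox, hδ1]
    | cons l w ih =>
      rw [fox, map_add, map_mul, ih, evalWord_cons]
      change _ = TrivSqZeroExt.inl (u (y l * evalWord x w) - 1) +
        TrivSqZeroExt.inr (δ (y l * evalWord x w))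
      rw [hδ, map_mul]
      simp only [Ψ, coe_eval₂Hom, eval₂_X, if_true, Bool.false_eq_true, if_false]
      ext
      · simp; ring
      · simp
  refine ⟨RingHom.ker Ψ, fun w => ?_⟩
  rw [RingHom.mem_ker, key]
  constructor
  · intro h
    simp [h, hδ1]
  · intro h
    have h1 := congrArg TrivSqZeroExt.fst h
    have h2 := congrArg TrivSqZeroExt.snd h
    simp only [TrivSqZeroExt.fst_add, TrivSqZeroExt.fst_inl, TrivSqZeroExt.fst_inr, add_zero,
      TrivSqZeroExt.fst_zero, TrivSqZeroExt.snd_add, TrivSqZeroExt.snd_inl, TrivSqZeroExt.snd_inr,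
      zero_add, TrivSqZeroExt.snd_zero] at h1 h2
    exact hinj _ (sub_eq_zero.1 h1) h2

theorem Setup.exists_ideal {M : Type*} [AddCommGroup M] (S : Setup G M) (x : Fin n → G) :
    ∃ I : Ideal (MvPolynomial (Vr n) ℤ), ∀ w, evalWord x w = 1 ↔ fox w ∈ I := by
  classical
  have hsurj : Function.Surjective (Abelianization.of : G →* Abelianization G) :=
    fun q => Quot.exists_rep q
  choose s hs using hsurj
  have hm : ∀ (g : G) (q : Abelianization G),
      ∃ m, S.ι m = s q * g * (s (q * Abelianization.of g))⁻¹ := by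
    intro g q
    rw [← S.range, ← Abelianization.ker_of, MonoidHom.mem_ker]
    simp [hs]
  choose δ hδ using hm
  let lam : Abelianization G →* Module.End ℤ (Abelianization G → M) :=
    { toFun := fun q =>
        { toFun := fun f p => f (p * q)
          map_add' := fun _ _ => rfl
          map_smul' := fun _ _ => rfl }
      map_one' := by ext f p; simp
      map_mul' := fun q q' => by
        apply LinearMap.ext; intro f; funext p
        change f (p * (q * q')) = f (p * q * q')
        rw [mul_assoc] }
  let R := MonoidAlgebra ℤ (Abelianization G)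
  let φ : R →ₐ[ℤ] Module.End ℤ (Abelianization G → M) :=
    MonoidAlgebra.lift ℤ (Module.End ℤ (Abelianization G → M)) (Abelianization G) lam
  let _ : Module R (Abelianization G → M) := Module.compHom _ φ.toRingHom
  let u : G →* R := (MonoidAlgebra.of ℤ (Abelianization G)).comp Abelianization.of
  have hu : ∀ g, φ (u g) = lam (Abelianization.of g) := fun g =>
    MonoidAlgebra.lift_of lam (Abelianization.of g)
  refine exists_ideal_of x u δ (fun g h => ?_) (fun g h1 h2 => ?_)
  · funext q
    change δ (g * h) q = δ g q + φ (u g) (δ h) q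
    rw [hu]
    change δ (g * h) q = δ g q + δ h (q * Abelianization.of g)
    apply S.ι_inj
    rw [S.ι_add, hδ, hδ, hδ, map_mul, mul_assoc q]
    group
  · have h3 : Abelianization.of g = 1 := by
      apply MonoidAlgebra.of_injective (R := ℤ)
      rw [map_one]; exact h1
    have h4 := hδ g 1
    rw [h2, h3, mul_one] at h4
    change S.ι 0 = _ at h4
    rw [S.ι_zero] at h4
    have : g = (s 1)⁻¹ * (s 1 * g * (s 1)⁻¹) * s 1 := by group
    rw [this, ← h4]; group

end Pool.Agent.H39Z.SSP
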