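import Mathlib

/-!
# Elements that are not roots of unity, and prime annihilators
-/

namespace Pool.Agent.H39Z.SSP

open Polynomial IntermediateField

/-- All coefficients lie in `{-1, 0, 1}`. -/
def Small (f : ℤ[X]) : Prop := ∀ i, |f.coeff i| ≤ 1

theorem Small.exists_monic {f : ℤ[X]} (hf : Small f) (h0 : f ≠ 0) :
    ∃ g : ℤ[X], Small g ∧ g.Monic ∧ (g = f ∨ g = -f) := by
  have h1 : f.leadingCoeff ≠ 0 := leadingCoeff_ne_zero.2 h0
  have h2 : |f.leadingCoeff| ≤ 1 := hf _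
  rw [abs_le] at h2
  rcases (by omega : f.leadingCoeff = 1 ∨ f.leadingCoeff = -1) with h | h
  · exact ⟨f, hf, h, Or.inl rfl⟩
  · refine ⟨-f, fun i => by simpa using hf i, ?_, Or.inr rfl⟩
    rw [Monic, leadingCoeff_neg, h]; simp

theorem norm_root_le {f : ℤ[X]} (hf : Small f) (hm : f.Monic) {z : ℂ} (hz : aeval z f = 0) :
    ‖z‖ ≤ 2 := by
  have hm' : (f.map (algebraMap ℤ ℂ)).Monic := hm.map _
  have hr : (f.map (algebraMap ℤ ℂ)).IsRoot z := by
    rw [IsRoot.def, eval_map_algebraMap]; exact hz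
  have h1 := hr.norm_lt_cauchyBound hm'.ne_zero
  have h2 : cauchyBound (f.map (algebraMap ℤ ℂ)) ≤ 2 := by
    rw [cauchyBound, hm'.leadingCoeff, nnnorm_one, div_one]
    have : (Finset.range (f.map (algebraMap ℤ ℂ)).natDegree).sup
        (fun i => ‖(f.map (algebraMap ℤ ℂ)).coeff i‖₊) ≤ 1 := by
      refine Finset.sup_le fun i _ => ?_
      rw [coeff_map, ← NNReal.coe_le_coe, coe_nnnorm, eq_intCast, Complex.norm_intCast]
      have h3 : ((|f.coeff i| : ℤ) : ℝ) ≤ ((1 : ℤ) : ℝ) := Int.cast_le.2 (hf i)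
      simpa using h3
    calc _ ≤ (1 : NNReal) + 1 := by gcongr
      _ = 2 := by norm_num
  have h3 : ‖z‖₊ ≤ 2 := (h1.trans_le h2).le
  exact_mod_cast h3

theorem root_of_unity_charZero {K : Type*} [Field K] [CharZero K] {ξ : K} (h0 : ξ ≠ 0)
    (h : ∀ N, 0 < N → ∃ f : ℤ[X], Small f ∧ f.Monic ∧ aeval (ξ ^ N) f = 0) :
    ∃ k, 0 < k ∧ ξ ^ k = 1 := by
  have hint : IsIntegral ℤ ξ := by
    obtain ⟨f, -, hm, hf⟩ := h 1 one_pos
    rw [pow_one] at hf
    exact ⟨f, hm, hf⟩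
  let L := ℚ⟮ξ⟯
  let _ : NumberField L :=
    { to_charZero := L.charZero
      to_finiteDimensional := adjoin.finiteDimensional hint.tower_top }
  let y : L := ⟨ξ, mem_adjoin_simple_self ℚ ξ⟩
  suffices ∃ (n : ℕ) (_ : 0 < n), y ^ n = 1 by
    obtain ⟨n, hn₀, hn₁⟩ := this
    exact ⟨n, hn₀, congrArg (algebraMap L K) hn₁⟩
  refine NumberField.Embeddings.pow_eq_one_of_norm_le_one (x := y) L ℂ
    (Subtype.coe_ne_coe.mp h0) (coe_isIntegral_iff.mp hint) fun φ => ?_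
  have hb : ∀ N, 0 < N → ‖φ y‖ ^ N ≤ 2 := by
    intro N hN
    obtain ⟨f, hs, hm, hf⟩ := h N hN
    rw [← norm_pow]
    apply norm_root_le hs hm
    have h1 : aeval (y ^ N) f = 0 := by
      apply (algebraMap L K).injective
      rw [map_zero, ← hf, ← aeval_algebraMap_apply]
      rfl
    have h2 : φ (aeval (y ^ N) f) = aeval (φ (y ^ N)) f := by
      conv_rhs => rw [← Polynomial.map_id (p := f)]
      exact f.map_aeval_eq_aeval_map (by ext; simp) (y ^ N)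
    rw [← map_pow, ← h2, h1, map_zero]
  by_contra hlt
  push Not at hlt
  obtain ⟨N, hN⟩ := pow_unbounded_of_one_lt 2 hlt
  have h3 := hb (N + 1) (Nat.succ_pos N)
  have h4 : ‖φ y‖ ^ N ≤ ‖φ y‖ ^ (N + 1) := pow_le_pow_right₀ hlt.le (Nat.le_succ N)
  linarith

theorem root_of_unity_charP {K : Type*} [Field K] (p : ℕ) [Fact p.Prime] [CharP K p] {ξ : K}
    (h0 : ξ ≠ 0) (hint : IsIntegral ℤ ξ) : ∃ k, 0 < k ∧ ξ ^ k = 1 := by
  let _ : Algebra (ZMod p) K := ZMod.algebra K p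
  let L := (ZMod p)⟮ξ⟯
  have : FiniteDimensional (ZMod p) L := adjoin.finiteDimensional hint.tower_top
  have : Finite L := Module.finite_of_finite (ZMod p)
  let y : L := ⟨ξ, mem_adjoin_simple_self (ZMod p) ξ⟩
  have hy : y ≠ 0 := Subtype.coe_ne_coe.mp h0
  obtain ⟨k, hk, hk1⟩ := isOfFinOrder_iff_pow_eq_one.1 (isOfFinOrder_of_finite (Units.mk0 y hy))
  refine ⟨k, hk, ?_⟩
  have h1 : y ^ k = 1 := by simpa using congrArg Units.val hk1
  exact congrArg (algebraMap L K) h1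

theorem exists_indep_power {K : Type*} [Field K] {ξ : K} (h0 : ξ ≠ 0)
    (h1 : ∀ k, 0 < k → ξ ^ k ≠ 1) :
    ∃ N, 0 < N ∧ ∀ f : ℤ[X], Small f → aeval (ξ ^ N) f = 0 → f = 0 := by
  by_contra hcon
  push Not at hcon
  have h : ∀ N, 0 < N → ∃ f : ℤ[X], Small f ∧ f.Monic ∧ aeval (ξ ^ N) f = 0 := by
    intro N hN
    obtain ⟨f, hs, hf, hf0⟩ := hcon N hN
    obtain ⟨g, hgs, hgm, hg⟩ := hs.exists_monic hf0
    refine ⟨g, hgs, hgm, ?_⟩
    rcases hg with rfl | rfl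
    · exact hf
    · rw [map_neg, hf, neg_zero]
  obtain ⟨p, hp⟩ := CharP.exists K
  rcases CharP.char_is_prime_or_zero K p with hpp | rfl
  · have : Fact p.Prime := ⟨hpp⟩
    have hint : IsIntegral ℤ ξ := by
      obtain ⟨f, -, hm, hf⟩ := h 1 one_pos
      rw [pow_one] at hf
      exact ⟨f, hm, hf⟩
    obtain ⟨k, hk, hk1⟩ := root_of_unity_charP p h0 hint
    exact h1 k hk hk1
  · have : CharZero K := CharP.charP_to_charZero K
    obtain ⟨k, hk, hk1⟩ := root_of_unity_charZero h0 h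
    exact h1 k hk hk1

theorem exists_indep_hom {K : Type*} [Field K] (π : ℤ[X] →+* K) (h0 : π X ≠ 0)
    (h1 : ∀ k, 0 < k → π X ^ k ≠ 1) :
    ∃ N, 0 < N ∧ ∀ f : ℤ[X], Small f → π (f.comp (X ^ N)) = 0 → f = 0 := by
  obtain ⟨N, hN, hind⟩ := exists_indep_power h0 h1
  refine ⟨N, hN, fun f hf h => hind f hf ?_⟩
  have e1 : π (f.comp (X ^ N)) = eval₂ (π.comp C) (π (X ^ N)) f := Polynomial.hom_eval₂ _ _ _ _
  have e2 : π.comp C = algebraMap ℤ K := RingHom.ext_int _ _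
  rw [aeval_def, ← map_pow, ← e2, ← e1, h]

theorem exists_prime_ann {R M : Type*} [CommRing R] [IsNoetherianRing R] [AddCommGroup M]
    [Module R M] (S : Submonoid R) (a : M) (ha : ∀ s ∈ S, s • a ≠ 0) :
    ∃ b : M, (∀ s ∈ S, s • b ≠ 0) ∧ ∀ f g : R, (f * g) • b = 0 → f • b = 0 ∨ g • b = 0 := by
  let ann : M → Ideal R := fun b => LinearMap.ker (LinearMap.toSpanSingleton R M b)
  have hann : ∀ b r, r ∈ ann b ↔ r • b = 0 := fun b r => by
    simp [ann, LinearMap.mem_ker]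
  obtain ⟨P, ⟨b, hb, rfl⟩, hmax⟩ := (set_has_maximal_iff_noetherian (R := R) (M := R)).2
    inferInstance {P | ∃ b : M, (∀ s ∈ S, s • b ≠ 0) ∧ ann b = P} ⟨ann a, a, ha, rfl⟩
  have hstep : ∀ r : R, (∀ s ∈ S, s • (r • b) ≠ 0) → ∀ f : R, f • (r • b) = 0 → f • b = 0 := by
    intro r hr f hf
    have hle : ann b ≤ ann (r • b) := by
      intro u hu
      rw [hann] at hu ⊢
      rw [smul_comm, hu, smul_zero]
    have heq : ann b = ann (r • b) := by
      by_contra hne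
      exact hmax _ ⟨r • b, hr, rfl⟩ (lt_of_le_of_ne hle hne)
    rw [← hann, heq, hann]
    exact hf
  refine ⟨b, hb, fun f g hfg => ?_⟩
  by_cases hg : ∀ s ∈ S, s • (g • b) ≠ 0
  · exact Or.inl (hstep g hg f (by rw [← mul_smul]; exact hfg))
  · push Not at hg
    obtain ⟨s, hs, hsg⟩ := hg
    refine Or.inr (hstep s (fun t ht => ?_) g (by rw [smul_comm]; exact hsg))
    rw [← mul_smul]
    exact hb _ (S.mul_mem ht hs)

/-- The divisors of the powers of the polynomials `X ^ k - 1`. -/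
def cycS : Submonoid ℤ[X] where
  carrier := {s | ∃ k m : ℕ, 0 < k ∧ s ∣ (X ^ k - 1) ^ m}
  one_mem' := ⟨1, 0, one_pos, by simp⟩
  mul_mem' := by
    rintro s t ⟨k, m, hk, hs⟩ ⟨l, n, hl, ht⟩
    refine ⟨k * l, m + n, Nat.mul_pos hk hl, ?_⟩
    rw [pow_add]
    refine mul_dvd_mul (hs.trans (pow_dvd_pow_of_dvd ?_ m)) (ht.trans (pow_dvd_pow_of_dvd ?_ n))
    · rw [pow_mul]; exact sub_one_dvd_pow_sub_one _ _
    · rw [mul_comm, pow_mul]; exact sub_one_dvd_pow_sub_one _ _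

theorem exists_indep_elt {M : Type*} [AddCommGroup M] [Module ℤ[X] M]
    (hX : ∀ b : M, (X : ℤ[X]) • b = 0 → b = 0) (a : M)
    (ha : ∀ k m : ℕ, 0 < k → ((X ^ k - 1) ^ m : ℤ[X]) • a ≠ 0) :
    ∃ (b : M) (N : ℕ), 0 < N ∧ ∀ f : ℤ[X], Small f → f.comp (X ^ N) • b = 0 → f = 0 := by
  obtain ⟨b, hb, hpr⟩ := exists_prime_ann cycS a (by
    rintro s ⟨k, m, hk, t, ht⟩ hs
    refine ha k m hk ?_
    rw [ht, mul_comm, mul_smul, hs, smul_zero])
  let P : Ideal ℤ[X] := LinearMap.ker (LinearMap.toSpanSingleton ℤ[X] M b)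
  have hP : ∀ r, r ∈ P ↔ r • b = 0 := fun r => by simp [P, LinearMap.mem_ker]
  have : P.IsPrime := by
    refine ⟨?_, fun {f g} h => ?_⟩
    · rw [Ne, Ideal.eq_top_iff_one, hP]
      exact hb 1 cycS.one_mem
    · rw [hP, hP]
      exact hpr f g ((hP _).1 h)
  let K := FractionRing (ℤ[X] ⧸ P)
  let π : ℤ[X] →+* K := (algebraMap (ℤ[X] ⧸ P) K).comp (Ideal.Quotient.mk P)
  have hπ : ∀ r, π r = 0 ↔ r • b = 0 := fun r => by
    rw [← hP, ← Ideal.Quotient.eq_zero_iff_mem]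
    exact map_eq_zero_iff _ (IsFractionRing.injective (ℤ[X] ⧸ P) K)
  obtain ⟨N, hN, hind⟩ := exists_indep_hom π (by
      rw [Ne, hπ]
      intro h
      have := hb 1 cycS.one_mem
      rw [hX b h, smul_zero] at this
      exact this rfl) (by
      intro k hk h
      refine hb (X ^ k - 1) ⟨k, 1, hk, by simp⟩ ?_
      rw [← hπ, map_sub, map_pow, h, map_one, sub_self])
  exact ⟨b, N, hN, fun f hf h => hind f hf ((hπ _).2 h)⟩

end Pool.Agent.H39Z.SSP
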