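import Pool.Agent.NPC.Defs

/-!
# The subset sum problem of a finitely generated group
-/

namespace Pool.Agent.H39Z.SSP

open Pool.Agent.NPC

/-- The letters `0, …, n - 1` are coded as natural numbers. -/
instance finTEnc (n : ℕ) : TEnc (Fin n) :=
  ⟨fun i => toT (i : ℕ), fun _ _ h => Fin.ext (TEnc.inj h)⟩

/-- Words over `n` generators and their inverses: `(i, true)` is the generator number `i` and
`(i, false)` is its inverse. -/
abbrev Word (n : ℕ) : Type := List (Fin n × Bool)

/-- The element of `G` represented by a word, the generators being `x 0, …, x (n - 1)`. -/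
def evalWord {G : Type*} [Group G] {n : ℕ} (x : Fin n → G) (w : Word n) : G :=
  (w.map fun l => if l.2 = true then x l.1 else (x l.1)⁻¹).prod

/-- The subset sum problem: given words `w₁, …, w_k` and `w`, are there exponents `ε i ∈ {0, 1}`
with `w = w₁ ^ ε₁ * ⋯ * w_k ^ ε_k` in `G`, the product being taken in the given order? -/
def SubsetSum {G : Type*} [Group G] {n : ℕ} (x : Fin n → G) (I : List (Word n) × Word n) : Prop :=
  ∃ ε : Fin I.1.length → ℕ, (∀ i, ε i = 0 ∨ ε i = 1) ∧
    evalWord x I.2 = (List.ofFn fun i => evalWord x (I.1.get i) ^ ε i).prod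

end Pool.Agent.H39Z.SSP
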