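import Mathlib

/-!
# Strong Groebner bases over the integers, and division with bounds
-/

namespace Pool.Agent.H39Z.SSP

open MvPolynomial MonomialOrder

open scoped MonomialOrder

variable {σ : Type} [Fintype σ]

/-- The ideal of the leading coefficients in degree `a`. -/
def lcIdeal (m : MonomialOrder σ) (I : Ideal (MvPolynomial σ ℤ)) (a : σ →₀ ℕ) : Ideal ℤ where
  carrier := {c | ∃ f ∈ I, m.degree f ≼[m] a ∧ f.coeff a = c}
  add_mem' := by
    rintro c d ⟨f, hf, hfa, rfl⟩ ⟨g, hg, hga, rfl⟩
    refine ⟨f + g, I.add_mem hf hg, ?_, by simp⟩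
    exact degree_add_le.trans (sup_le hfa hga)
  zero_mem' := ⟨0, I.zero_mem, by simp, by simp⟩
  smul_mem' := by
    rintro c d ⟨f, hf, hfa, rfl⟩
    refine ⟨c • f, ?_, degree_smul_le.trans hfa, coeff_smul _ _ _⟩
    rw [MvPolynomial.smul_eq_C_mul]
    exact I.mul_mem_left _ hf

omit [Fintype σ] in
theorem lcIdeal_mono (m : MonomialOrder σ) (I : Ideal (MvPolynomial σ ℤ)) :
    Monotone (lcIdeal m I) := by
  classical
  intro a b hab
  rintro c ⟨f, hf, hfa, rfl⟩
  obtain ⟨e, rfl⟩ := exists_add_of_le hab
  refine ⟨monomial e 1 * f, I.mul_mem_left _ hf, ?_, ?_⟩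
  · refine degree_mul_le.trans ?_
    rw [map_add, map_add, add_comm]
    exact add_le_add hfa (degree_monomial_le 1)
  · rw [add_comm, coeff_monomial_mul, one_mul]

theorem exists_strong (m : MonomialOrder σ) (I : Ideal (MvPolynomial σ ℤ)) :
    ∃ B : Finset (MvPolynomial σ ℤ), (∀ g ∈ B, g ∈ I) ∧
      ∀ f ∈ I, f ≠ 0 → ∃ g ∈ B, g ≠ 0 ∧ m.degree g ≤ m.degree f ∧
        m.leadingCoeff g ∣ m.leadingCoeff f := by
  classical
  -- good polynomials: the leading coefficient generates the ideal in that degree
  let good : MvPolynomial σ ℤ → Prop := fun g => g ∈ I ∧ g ≠ 0 ∧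
    ∀ c ∈ lcIdeal m I (m.degree g), m.leadingCoeff g ∣ c
  have hgood : ∀ f ∈ I, f ≠ 0 → ∃ g, good g ∧ m.degree g = m.degree f := by
    intro f hf hf0
    obtain ⟨c, hc⟩ := (IsPrincipalIdealRing.principal (lcIdeal m I (m.degree f))).principal
    have hcm : c ∈ lcIdeal m I (m.degree f) := by
      rw [hc]; exact Submodule.mem_span_singleton_self c
    obtain ⟨g, hg, hga, hgc⟩ := hcm
    have hfm : m.leadingCoeff f ∈ lcIdeal m I (m.degree f) := ⟨f, hf, le_rfl, rfl⟩
    have hc0 : c ≠ 0 := by
      rintro rfl
      rw [hc] at hfm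
      simp only [Submodule.span_zero_singleton, Submodule.mem_bot] at hfm
      exact hf0 (leadingCoeff_eq_zero_iff.1 hfm)
    have hdeg : m.degree g = m.degree f := by
      apply m.toSyn.injective
      refine le_antisymm hga (m.le_degree ?_)
      rw [mem_support_iff, hgc]; exact hc0
    have hg0 : g ≠ 0 := by
      rintro rfl
      simp at hgc
      exact hc0 hgc.symm
    refine ⟨g, ⟨hg, hg0, ?_⟩, hdeg⟩
    intro d hd
    rw [hdeg, hc] at hd
    have : m.leadingCoeff g = c := by
      rw [← hgc, MonomialOrder.leadingCoeff, hdeg]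
    rw [this]
    exact Ideal.mem_span_singleton.1 hd
  by_contra hcon
  push Not at hcon
  have hseq := exists_seq_of_forall_finset_exists good
    (fun g f => ¬ (m.degree g ≤ m.degree f ∧ m.leadingCoeff g ∣ m.leadingCoeff f)) (by
      intro s hs
      obtain ⟨f, hf, hf0, hfs⟩ := hcon s (fun g hg => (hs g hg).1)
      obtain ⟨g, hg, hgf⟩ := hgood f hf hf0
      refine ⟨g, hg, ?_⟩
      rintro x hx ⟨h1, h2⟩
      refine hfs x hx (hs x hx).2.1 (hgf ▸ h1) (h2.trans (hg.2.2 _ ?_))
      rw [hgf]
      exact ⟨f, hf, le_rfl, rfl⟩)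
  obtain ⟨u, hu, hur⟩ := hseq
  have hpwo : (Set.univ : Set (σ →₀ ℕ)).IsPWO := Set.isPWO_of_wellQuasiOrderedLE _
  obtain ⟨φ, hφ⟩ := hpwo.exists_monotone_subseq (f := fun k => m.degree (u k))
    (fun _ => Set.mem_univ _)
  let ch : ℕ →o Ideal ℤ := ⟨fun k => lcIdeal m I (m.degree (u (φ k))),
    fun a b hab => lcIdeal_mono m I (hφ hab)⟩
  obtain ⟨k, hk⟩ := (monotone_stabilizes_iff_noetherian (R := ℤ) (M := ℤ)).2 inferInstance ch
  have h1 := hk (k + 1) (Nat.le_succ k)
  refine hur (φ k) (φ (k + 1)) (φ.strictMono (Nat.lt_succ_self k)) ⟨hφ (Nat.le_succ k), ?_⟩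
  apply (hu (φ k)).2.2
  change _ ∈ ch k
  rw [h1]
  exact ⟨u (φ (k + 1)), (hu _).1, le_rfl, rfl⟩

/-- The exponents all of whose entries are at most `d`. -/
noncomputable def box (σ : Type) [Fintype σ] (d : ℕ) : Finset (σ →₀ ℕ) := by
  classical
  exact (Fintype.piFinset fun _ : σ => Finset.range (d + 1)).map
    Finsupp.equivFunOnFinite.symm.toEmbedding

theorem card_box (d : ℕ) : (box σ d).card = (d + 1) ^ Fintype.card σ := by
  classical
  simp [box]

theorem mem_box {d : ℕ} {a : σ →₀ ℕ} (h : a.degree ≤ d) : a ∈ box σ d := by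
  classical
  simp only [box, Finset.mem_map, Fintype.mem_piFinset, Finset.mem_range]
  refine ⟨a, fun s => ?_, by simp⟩
  have := Finsupp.le_degree s a
  omega

/-- Division with bounds. -/
theorem exists_cert (I : Ideal (MvPolynomial σ ℤ)) :
    ∃ (B : List (MvPolynomial σ ℤ)) (C : ℕ), (∀ g ∈ B, g ∈ I) ∧
      ∀ (d H : ℕ) (f : MvPolynomial σ ℤ), f ∈ I → f.totalDegree ≤ d →
        (∀ a, (f.coeff a).natAbs ≤ H) →
        ∃ cert : List (ℕ × ℤ × (σ →₀ ℕ)), cert.length ≤ (d + 1) ^ Fintype.card σ ∧
          (∀ t ∈ cert, t.1 < B.length ∧ t.2.1.natAbs ≤ H * C ^ ((d + 1) ^ Fintype.card σ) ∧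
            t.2.2.degree ≤ d) ∧
          f = (cert.map fun t => monomial t.2.2 t.2.1 * B.getD t.1 0).sum := by
  classical
  let _ : LinearOrder σ := LinearOrder.lift' (Fintype.equivFin σ) (Fintype.equivFin σ).injective
  let m : MonomialOrder σ := degLex
  obtain ⟨B, hB, hBs⟩ := exists_strong m I
  obtain ⟨C0, hC0⟩ : ∃ C0 : ℕ, ∀ g ∈ B, ∀ a, (g.coeff a).natAbs ≤ C0 := by
    refine ⟨B.sup fun g => g.support.sup fun a => (g.coeff a).natAbs, fun g hg a => ?_⟩
    by_cases ha : a ∈ g.support
    · exact (Finset.le_sup (f := fun a => (g.coeff a).natAbs) ha).trans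
        (Finset.le_sup (f := fun g : MvPolynomial σ ℤ =>
          g.support.sup fun a => (g.coeff a).natAbs) hg)
    · rw [notMem_support_iff.1 ha]; simp
  refine ⟨B.toList, C0 + 1, fun g hg => hB g (Finset.mem_toList.1 hg), ?_⟩
  intro d
  have key : ∀ (r H : ℕ) (f : MvPolynomial σ ℤ), f ∈ I → f.totalDegree ≤ d →
      (∀ a, (f.coeff a).natAbs ≤ H) →
      (f ≠ 0 → ((box σ d).filter fun a => a ≼[m] m.degree f).card ≤ r) →
      ∃ cert : List (ℕ × ℤ × (σ →₀ ℕ)), cert.length ≤ r ∧
          (∀ t ∈ cert, t.1 < B.toList.length ∧ t.2.1.natAbs ≤ H * (C0 + 1) ^ r ∧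
            t.2.2.degree ≤ d) ∧
          f = (cert.map fun t => monomial t.2.2 t.2.1 * B.toList.getD t.1 0).sum := by
    intro r
    induction r with
    | zero =>
      intro H f hf hd hH hr
      by_cases hf0 : f = 0
      · exact ⟨[], le_rfl, by simp, by simp [hf0]⟩
      · exfalso
        have h1 := hr hf0
        have h2 : m.degree f ∈ (box σ d).filter fun a => a ≼[m] m.degree f := by
          rw [Finset.mem_filter]
          refine ⟨mem_box ?_, le_rfl⟩
          rw [degree_degLexDegree]; exact hd
        have := Finset.card_pos.2 ⟨_, h2⟩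
        omega
    | succ r ih =>
      intro H f hf hd hH hr
      by_cases hf0 : f = 0
      · exact ⟨[], by simp, by simp, by simp [hf0]⟩
      obtain ⟨g, hgB, hg0, hgd, c, hc⟩ := hBs f hf hf0
      obtain ⟨e, he⟩ := exists_add_of_le hgd
      obtain ⟨j, hj, hjg⟩ := List.getElem_of_mem (Finset.mem_toList.2 hgB)
      have hlg : m.leadingCoeff g ≠ 0 := leadingCoeff_ne_zero_iff.2 hg0
      have hcH : c.natAbs ≤ H := by
        have h1 := hH (m.degree f)
        change (m.leadingCoeff f).natAbs ≤ H at h1
        rw [hc, Int.natAbs_mul] at h1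
        have h2 : 1 ≤ (m.leadingCoeff g).natAbs := Int.natAbs_pos.2 hlg
        nlinarith
      set f' := f - monomial e c * g with hf'
      have hle : m.degree (monomial e c * g) ≼[m] m.degree f := by
        refine degree_mul_le.trans ?_
        rw [he, map_add, map_add, add_comm]
        exact add_le_add le_rfl (degree_monomial_le c)
      have hle' : m.degree f' ≼[m] m.degree f :=
        degree_sub_le.trans (sup_le le_rfl hle)
      have hz : f'.coeff (m.degree f) = 0 := by
        rw [hf', coeff_sub]
        have : (monomial e c * g).coeff (m.degree f) = c * m.leadingCoeff g := by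
          rw [he, add_comm, coeff_monomial_mul]; rfl
        rw [this]
        change m.leadingCoeff f - _ = 0
        rw [hc]; ring
      obtain ⟨cert, h1, h2, h3⟩ := ih (H * (C0 + 1)) f' (I.sub_mem hf (I.mul_mem_left _ (hB g hgB)))
        ((degLex_totalDegree_monotone hle').trans hd) (by
          intro a
          rw [hf', coeff_sub, coeff_monomial_mul']
          refine (Int.natAbs_sub_le _ _).trans ?_
          have h4 := hH a
          split_ifs
          · rw [Int.natAbs_mul]
            have h5 := hC0 g hgB (a - e)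
            nlinarith [Nat.mul_le_mul hcH h5]
          · simp only [Int.natAbs_zero]
            nlinarith) (by
          intro hf'0
          have hne : m.degree f' ≠ m.degree f := by
            intro h
            rw [← h] at hz
            exact hf'0 (coeff_degree_eq_zero_iff.1 hz)
          have hlt : m.degree f' ≺[m] m.degree f :=
            lt_of_le_of_ne hle' (fun h => hne (m.toSyn.injective h))
          have hss : ((box σ d).filter fun a => a ≼[m] m.degree f') ⊂
              ((box σ d).filter fun a => a ≼[m] m.degree f) := by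
            rw [Finset.ssubset_iff_of_subset]
            · refine ⟨m.degree f, ?_, ?_⟩
              · rw [Finset.mem_filter]
                refine ⟨mem_box ?_, le_rfl⟩
                rw [degree_degLexDegree]; exact hd
              · rw [Finset.mem_filter]
                rintro ⟨-, h⟩
                exact absurd hlt (not_lt.2 h)
            · intro a ha
              rw [Finset.mem_filter] at ha ⊢
              exact ⟨ha.1, ha.2.trans hle'⟩
          have := Finset.card_lt_card hss
          have := hr hf0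
          omega)
      refine ⟨(j, c, e) :: cert, by simp; omega, ?_, ?_⟩
      · intro t ht
        rcases List.mem_cons.1 ht with rfl | ht
        · refine ⟨hj, ?_, ?_⟩
          · have : 1 ≤ (C0 + 1) ^ (r + 1) := Nat.one_le_pow _ _ (by omega)
            change c.natAbs ≤ _
            nlinarith
          · change e.degree ≤ d
            have h4 : (m.degree f).degree ≤ d := by rw [degree_degLexDegree]; exact hd
            rw [he, map_add] at h4
            omega
        · obtain ⟨h4, h5, h6⟩ := h2 t ht
          refine ⟨h4, ?_, h6⟩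
          rw [pow_succ]
          calc _ ≤ _ := h5
            _ = _ := by ring
      · rw [List.map_cons, List.sum_cons, ← h3]
        have : B.toList.getD j 0 = g := by
          rw [List.getD_eq_getElem _ _ hj, hjg]
        simp only [this]
        rw [hf']; ring
  intro H f hf hd hH
  exact key _ H f hf hd hH (fun _ => (Finset.card_filter_le _ _).trans (card_box d).le)

end Pool.Agent.H39Z.SSP
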