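import Pool.Agent.H39Z.SSP.Reach
import Pool.Agent.H958R2.NLT.X13Hard

/-!
# Hardness of the subset sum problem from conjugates with distinct subset products
-/

namespace Pool.Agent.H39Z.SSP

open Pool.Agent.NPC Pool.Agent.H958R2

variable {G : Type*} [Group G] {n : ℕ}

theorem reach_choice (F T : ℕ → G) (k : ℕ) (h : G) :
    Reach ((List.range k).flatMap fun v => [(true, F v), (false, (F v)⁻¹ * T v)]) h ↔
      ∃ σ : ℕ → Bool, h = ((List.range k).map fun v => if σ v = true then T v else F v).prod := by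
  induction k generalizing h with
  | zero => simp [Reach]
  | succ k ih =>
    simp only [List.range_succ, List.flatMap_append, reach_append, ih, List.flatMap_cons,
      List.flatMap_nil, List.append_nil, Reach, Bool.true_eq_false, false_and, or_false, true_and,
      List.map_append, List.prod_append, List.map_cons, List.map_nil, List.prod_cons,
      List.prod_nil, mul_one]
    constructor
    · have key : ∀ (σ : ℕ → Bool) (c : Bool),
          ((List.range k).map fun v => if σ v = true then T v else F v) =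
          ((List.range k).map fun v => if Function.update σ k c v = true then T v else F v) := by
        intro σ c
        refine List.map_congr_left fun v hv => ?_
        rw [Function.update_of_ne (List.mem_range.1 hv).ne]
      rintro ⟨_, _, ⟨σ, rfl⟩, ⟨_, ⟨_, rfl, rfl⟩ | rfl, rfl⟩, rfl⟩
      · exact ⟨Function.update σ k true, by rw [← key]; simp⟩
      · exact ⟨Function.update σ k false, by rw [← key]; simp⟩
    · rintro ⟨σ, rfl⟩
      refine ⟨_, _, ⟨σ, rfl⟩, ?_, rfl⟩
      cases σ k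
      · exact ⟨1, Or.inr rfl, by simp⟩
      · exact ⟨_, Or.inl ⟨1, rfl, rfl⟩, by simp⟩

/-- The gadget of a clause. -/
def gad (τ u : G) : List (Bool × G) :=
  [(false, τ), (false, τ), (true, u), (false, τ⁻¹), (false, τ⁻¹)]

theorem reach_gad {τ u h : G} :
    Reach (gad τ u) h ↔ ∃ i j : ℕ, i ≤ 2 ∧ j ≤ 2 ∧ h = τ ^ i * u * (τ ^ j)⁻¹ := by
  simp only [gad, Reach, true_and, Bool.true_eq_false, false_and, or_false]
  constructor
  · rintro (⟨_, ⟨_, ⟨_, ⟨_, ⟨_, rfl, rfl⟩ | rfl, rfl⟩ | ⟨_, rfl, rfl⟩ | rfl, rfl⟩, rfl⟩ |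
      ⟨_, ⟨_, ⟨_, rfl, rfl⟩ | rfl, rfl⟩ | ⟨_, rfl, rfl⟩ | rfl, rfl⟩, rfl⟩ |
      ⟨_, ⟨_, ⟨_, ⟨_, rfl, rfl⟩ | rfl, rfl⟩ | ⟨_, rfl, rfl⟩ | rfl, rfl⟩, rfl⟩ |
      ⟨_, ⟨_, ⟨_, rfl, rfl⟩ | rfl, rfl⟩ | ⟨_, rfl, rfl⟩ | rfl, rfl⟩)
    · exact ⟨2, 2, le_rfl, le_rfl, by simp [pow_two, mul_assoc]⟩
    · exact ⟨2, 1, le_rfl, by omega, by simp [pow_two, mul_assoc]⟩
    · exact ⟨2, 1, le_rfl, by omega, by simp [pow_two, mul_assoc]⟩
    · exact ⟨2, 0, le_rfl, by omega, by simp [pow_two, mul_assoc]⟩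
    · exact ⟨1, 2, by omega, le_rfl, by group⟩
    · exact ⟨1, 1, by omega, by omega, by group⟩
    · exact ⟨1, 1, by omega, by omega, by group⟩
    · exact ⟨1, 0, by omega, by omega, by group⟩
    · exact ⟨1, 2, by omega, le_rfl, by group⟩
    · exact ⟨1, 1, by omega, by omega, by group⟩
    · exact ⟨1, 1, by omega, by omega, by group⟩
    · exact ⟨1, 0, by omega, by omega, by group⟩
    · exact ⟨0, 2, by omega, le_rfl, by group⟩
    · exact ⟨0, 1, by omega, by omega, by group⟩
    · exact ⟨0, 1, by omega, by omega, by group⟩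
    · exact ⟨0, 0, by omega, by omega, by group⟩
  · rintro ⟨i, j, hi, hj, rfl⟩
    have hJ : (∃ k, ((∃ k_1, k_1 = 1 ∧ k = τ⁻¹ * k_1) ∨ k = 1) ∧ (τ ^ j)⁻¹ = τ⁻¹ * k) ∨
        (∃ k, k = 1 ∧ (τ ^ j)⁻¹ = τ⁻¹ * k) ∨ (τ ^ j)⁻¹ = 1 := by
      interval_cases j
      · exact Or.inr (Or.inr (by simp))
      · exact Or.inr (Or.inl ⟨1, rfl, by simp⟩)
      · exact Or.inl ⟨_, Or.inl ⟨1, rfl, rfl⟩, by group⟩
    interval_cases i
    · exact Or.inr (Or.inr ⟨_, hJ, by group⟩)
    · exact Or.inr (Or.inl ⟨_, ⟨_, hJ, rfl⟩, by group⟩)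
    · exact Or.inl ⟨_, Or.inl ⟨_, ⟨_, hJ, rfl⟩, rfl⟩, by simp [pow_two, mul_assoc]⟩

section

variable {M : Type*} [CommGroup M] {ι : M →* G} {τ : G} {β : ℤ → M}

theorem conj_zpow (hβ : ∀ j, τ * ι (β j) * τ⁻¹ = ι (β (j + 1))) (e j : ℤ) :
    τ ^ e * ι (β j) * (τ ^ e)⁻¹ = ι (β (j + e)) := by
  induction e using Int.induction_on with
  | zero => simp
  | succ e ih =>
    rw [← add_assoc, ← hβ, ← ih]
    group
  | pred e ih =>
    have h1 := hβ (j + (-(e : ℤ) - 1))
    have h2 : j + (-(e : ℤ) - 1) + 1 = j + -(e : ℤ) := by ring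
    rw [h2, ← ih] at h1
    have h3 : ι (β (j + (-(e : ℤ) - 1))) =
        τ⁻¹ * (τ ^ (-(e : ℤ)) * ι (β j) * (τ ^ (-(e : ℤ)))⁻¹) * τ := by
      rw [← h1]; group
    rw [h3]; group

theorem reach_gads_sound (hβ : ∀ j, τ * ι (β j) * τ⁻¹ = ι (β (j + 1))) (q : ℕ → ℤ) (k : ℕ) (h : G)
    (hh : Reach ((List.range k).flatMap fun c => gad τ (ι (β (q c)))⁻¹) h) :
    ∃ (δ : ℕ → ℤ) (e : ℤ), (∀ c < k, |δ c| ≤ 2 * k) ∧ |e| ≤ 2 * k ∧
      h = (ι (∏ c ∈ Finset.range k, β (q c + δ c)))⁻¹ * τ ^ e := by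
  induction k generalizing h with
  | zero => exact ⟨fun _ => 0, 0, by simp, by simp, by simpa [Reach] using hh⟩
  | succ k ih =>
    rw [List.range_succ, List.flatMap_append, reach_append] at hh
    obtain ⟨a, b, ha, hb, rfl⟩ := hh
    obtain ⟨δ, e, h1, h2, rfl⟩ := ih a ha
    simp only [List.flatMap_cons, List.flatMap_nil, List.append_nil, reach_gad] at hb
    obtain ⟨i, j, hi, hj, rfl⟩ := hb
    rw [abs_le] at h2
    refine ⟨Function.update δ k (e + i), e + i - j, fun c hc => ?_, ?_, ?_⟩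
    · by_cases hck : c = k
      · subst hck
        rw [Function.update_self, abs_le]
        push_cast; omega
      · rw [Function.update_of_ne hck]
        have := h1 c (by omega)
        push_cast; omega
    · rw [abs_le]; push_cast; omega
    · rw [Finset.prod_range_succ, Function.update_self]
      have : ∏ c ∈ Finset.range k, β (q c + Function.update δ k (e + i) c) =
          ∏ c ∈ Finset.range k, β (q c + δ c) :=
        Finset.prod_congr rfl fun c hc => by rw [Function.update_of_ne (Finset.mem_range.1 hc).ne]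
      rw [this, mul_comm (∏ c ∈ Finset.range k, β (q c + δ c)), map_mul, ← conj_zpow hβ (e + i)]
      group

theorem reach_gads_compl (hβ : ∀ j, τ * ι (β j) * τ⁻¹ = ι (β (j + 1))) (q : ℕ → ℤ) (k : ℕ)
    (r : ℕ → ℕ) (hr : ∀ c < k, r c ≤ 2) :
    Reach ((List.range k).flatMap fun c => gad τ (ι (β (q c)))⁻¹)
      (ι (∏ c ∈ Finset.range k, β (q c + r c)))⁻¹ := by
  induction k with
  | zero => simp [Reach]
  | succ k ih =>
    rw [List.range_succ, List.flatMap_append, reach_append]
    refine ⟨_, (ι (β (q k + r k)))⁻¹, ih fun c hc => hr c (by omega), ?_, ?_⟩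
    · simp only [List.flatMap_cons, List.flatMap_nil, List.append_nil, reach_gad]
      refine ⟨r k, r k, hr k (by omega), hr k (by omega), ?_⟩
      rw [← conj_zpow hβ (r k)]
      group
    · rw [Finset.prod_range_succ, mul_comm (∏ c ∈ Finset.range k, β (q c + r c)), map_mul]
      group

end

/-- Formulas. -/
abbrev Fm : Type := List (Lit ℕ × Lit ℕ × Lit ℕ)

/-- A power of a word. -/
def wpow (w : Word n) (j : ℕ) : Word n := (List.replicate j ()).flatMap fun _ => w

theorem evalWord_wpow (x : Fin n → G) (w : Word n) (j : ℕ) :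
    evalWord x (wpow w j) = evalWord x w ^ j := by
  simp [wpow, evalWord_flatMap]

/-- A conjugate of `wb` by a power of `wt`. -/
def wconj (wt wb : Word n) (j : ℕ) : Word n := wpow wt j ++ wb ++ invW (wpow wt j)

/-- The literal number `r` of the clause number `c`. -/
def lit (φ : Fm) (c r : ℕ) : Lit ℕ :=
  if r = 0 then (φ.getD c ((true, 0), (true, 0), (true, 0))).1
  else if r = 1 then (φ.getD c ((true, 0), (true, 0), (true, 0))).2.1
  else (φ.getD c ((true, 0), (true, 0), (true, 0))).2.2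

/-- The position attached to the literal number `r` of the clause number `c`. -/
def pos (φ : Fm) (c r : ℕ) : ℕ :=
  min ((4 * φ.length + 4) * c + r) ((4 * φ.length + 4) * φ.length)

theorem pos_eq {φ : Fm} {c r : ℕ} (hc : c < φ.length) (hr : r < 3) :
    pos φ c r = (4 * φ.length + 4) * c + r := by
  apply min_eq_left
  nlinarith

/-- The word of all occurrences of a literal. -/
def occW (wt wb : Word n) (φ : Fm) (l : Lit ℕ) : Word n :=
  (List.range φ.length).flatMap fun c => (List.range 3).flatMap fun r =>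
    if lit φ c r = l then wconj wt wb (pos φ c r) else []

/-- The instance with mandatory words. -/
def minst (wt wb : Word n) (φ : Fm) : List (Bool × Word n) :=
  ((List.range (3 * φ.length)).flatMap fun v => [(true, occW wt wb φ (false, v)),
    (false, invW (occW wt wb φ (false, v)) ++ occW wt wb φ (true, v))]) ++
  (List.range φ.length).flatMap fun c => [(false, wt), (false, wt),
    (true, invW (wconj wt wb (pos φ c 0))), (false, invW wt), (false, invW wt)]

theorem wconj_poly {α : Type} [TEnc α] (wt wb : Word n) {j : α → ℕ} (hj : UPoly j) :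
    Poly (fun a => wconj wt wb (j a)) := by
  have h1 : ∀ w : Word n, Poly (fun a => wpow w (j a)) := fun w =>
    Poly.flatMap (F := fun _ _ => w) hj (NPC.Poly.const _)
  have h2 := h1 wt
  unfold wconj
  fun_prop

theorem pos_uPoly {α : Type} [TEnc α] {φ : α → Fm} {c r : α → ℕ} (hφ : Poly φ) (hc : Poly c)
    (hr : Poly r) : UPoly (fun a => pos (φ a) (c a) (r a)) := by
  refine UPoly.of_le (n := fun a => (4 * (φ a).length + 4) * (φ a).length) ?_ ?_
    (fun a => min_le_right _ _)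
  · unfold pos; fun_prop
  · exact (((UPoly.const 4).mul (UPoly.length hφ)).add (UPoly.const 4)).mul (UPoly.length hφ)

theorem lit_poly {α : Type} [TEnc α] {φ : α → Fm} {c r : α → ℕ} (hφ : Poly φ) (hc : Poly c)
    (hr : Poly r) : Poly (fun a => lit (φ a) (c a) (r a)) := by
  unfold lit
  fun_prop

theorem occW_poly {α : Type} [TEnc α] (wt wb : Word n) {φ : α → Fm} {l : α → Lit ℕ} (hφ : Poly φ)
    (hl : Poly l) : Poly (fun a => occW wt wb (φ a) (l a)) := by
  unfold occW
  refine Poly.flatMap (F := fun a c => (List.range 3).flatMap fun r =>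
    if lit (φ a) c r = l a then wconj wt wb (pos (φ a) c r) else []) (UPoly.length hφ).range ?_
  refine Poly.flatMap (F := fun (p : α × ℕ) r =>
    if lit (φ p.1) p.2 r = l p.1 then wconj wt wb (pos (φ p.1) p.2 r) else [])
    (NPC.Poly.const _) ?_
  have h1 : Poly (fun p : (α × ℕ) × ℕ => φ p.1.1) := by fun_prop
  have h2 : Poly (fun p : (α × ℕ) × ℕ => p.1.2) := by fun_prop
  have h3 : Poly (fun p : (α × ℕ) × ℕ => p.2) := by fun_prop
  have h4 : Poly (fun p : (α × ℕ) × ℕ => l p.1.1) := by fun_prop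
  exact Poly.ite (Poly.dec_eq (lit_poly h1 h2 h3) h4) (wconj_poly wt wb (pos_uPoly h1 h2 h3))
    (NPC.Poly.const _)

theorem minst_poly (wt wb : Word n) : Poly (minst wt wb) := by
  unfold minst
  refine Poly.append ?_ ?_
  · refine Poly.flatMap (F := fun φ v => [(true, occW wt wb φ (false, v)),
      (false, invW (occW wt wb φ (false, v)) ++ occW wt wb φ (true, v))])
      ((UPoly.const 3).mul (UPoly.length Poly.id)).range ?_
    have h1 : Poly (fun p : Fm × ℕ => occW wt wb p.1 (false, p.2)) :=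
      occW_poly wt wb (by fun_prop) (by fun_prop)
    have h2 : Poly (fun p : Fm × ℕ => occW wt wb p.1 (true, p.2)) :=
      occW_poly wt wb (by fun_prop) (by fun_prop)
    fun_prop
  · refine Poly.flatMap (F := fun φ c => [(false, wt), (false, wt),
      (true, invW (wconj wt wb (pos φ c 0))), (false, invW wt), (false, invW wt)])
      (UPoly.length Poly.id).range ?_
    have h1 : Poly (fun p : Fm × ℕ => wconj wt wb (pos p.1 p.2 0)) :=
      wconj_poly wt wb (pos_uPoly (by fun_prop) (by fun_prop) (NPC.Poly.const _))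
    fun_prop

section

variable {M : Type*} [CommGroup M] {ι : M →* G} {τ : G} {β : ℤ → M}

theorem evalWord_wconj {x : Fin n → G} {wt wb : Word n}
    (hβ : ∀ j, τ * ι (β j) * τ⁻¹ = ι (β (j + 1))) (ht : evalWord x wt = τ)
    (hb : evalWord x wb = ι (β 0)) (j : ℕ) : evalWord x (wconj wt wb j) = ι (β j) := by
  have := conj_zpow hβ j 0
  rw [zero_add, zpow_natCast] at this
  simp only [wconj, evalWord_append, evalWord_invW, evalWord_wpow, ht, hb, this]

theorem list_prod_range (f : ℕ → M) (k : ℕ) :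
    ((List.range k).map fun c => ι (f c)).prod = ι (∏ c ∈ Finset.range k, f c) := by
  induction k with
  | zero => simp
  | succ k ih => simp [List.range_succ, Finset.prod_range_succ, ih]

theorem evalWord_occW {x : Fin n → G} {wt wb : Word n}
    (hβ : ∀ j, τ * ι (β j) * τ⁻¹ = ι (β (j + 1))) (ht : evalWord x wt = τ)
    (hb : evalWord x wb = ι (β 0)) (φ : Fm) (l : Lit ℕ) :
    evalWord x (occW wt wb φ l) = ι (∏ c ∈ Finset.range φ.length, ∏ r ∈ Finset.range 3,
      if lit φ c r = l then β (pos φ c r) else 1) := by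
  rw [occW, evalWord_flatMap, ← list_prod_range]
  congr 1
  refine List.map_congr_left fun c _ => ?_
  rw [evalWord_flatMap, ← list_prod_range]
  congr 1
  refine List.map_congr_left fun r _ => ?_
  split_ifs
  · exact evalWord_wconj hβ ht hb _
  · simp

theorem lit_lt {φ : Fm} (hφ : Bd13 φ) {c : ℕ} (hc : c < φ.length) (r : ℕ) :
    (lit φ c r).2 < 3 * φ.length := by
  have h := hφ φ[c] (List.getElem_mem hc)
  unfold lit
  rw [List.getD_eq_getElem _ _ hc]
  split_ifs
  · exact h.1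
  · exact h.2.1
  · exact h.2.2

theorem x13_iff (φ : Fm) : X13 φ ↔ ∃ (σ : ℕ → Bool) (ρ : ℕ → ℕ), ∀ c < φ.length, ρ c < 3 ∧
    ∀ r < 3, (σ (lit φ c r).2 = (lit φ c r).1 ↔ r = ρ c) := by
  have key : ∀ (σ : ℕ → Bool) (c : ℕ) (hc : c < φ.length),
      one3 (σ φ[c].1.2 == φ[c].1.1) (σ φ[c].2.1.2 == φ[c].2.1.1) (σ φ[c].2.2.2 == φ[c].2.2.1) = true ↔
      ∃ j < 3, ∀ r < 3, (σ (lit φ c r).2 = (lit φ c r).1 ↔ r = j) := by
    intro σ c hc
    have e0 : lit φ c 0 = φ[c].1 := by simp [lit, List.getElem?_eq_getElem hc]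
    have e1 : lit φ c 1 = φ[c].2.1 := by simp [lit, List.getElem?_eq_getElem hc]
    have e2 : lit φ c 2 = φ[c].2.2 := by simp [lit, List.getElem?_eq_getElem hc]
    have e3 : ∀ P : ℕ → Prop, (∀ r < 3, P r) ↔ P 0 ∧ P 1 ∧ P 2 := fun P =>
      ⟨fun h => ⟨h 0 (by omega), h 1 (by omega), h 2 (by omega)⟩, fun h r hr => by
        interval_cases r
        exacts [h.1, h.2.1, h.2.2]⟩
    have e4 : ∀ P : ℕ → Prop, (∃ r < 3, P r) ↔ P 0 ∨ P 1 ∨ P 2 := fun P =>
      ⟨fun ⟨r, hr, h⟩ => by
        interval_cases r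
        exacts [Or.inl h, Or.inr (Or.inl h), Or.inr (Or.inr h)],
       fun h => by
        rcases h with h | h | h
        exacts [⟨0, by omega, h⟩, ⟨1, by omega, h⟩, ⟨2, by omega, h⟩]⟩
    rw [e4]
    simp only [e3, e0, e1, e2]
    by_cases h0 : σ φ[c].1.2 = φ[c].1.1 <;> by_cases h1 : σ φ[c].2.1.2 = φ[c].2.1.1 <;>
      by_cases h2 : σ φ[c].2.2.2 = φ[c].2.2.1 <;> simp [one3, h0, h1, h2]
  constructor
  · rintro ⟨σ, hσ⟩
    have h : ∀ c, ∃ j, c < φ.length → j < 3 ∧
        ∀ r < 3, (σ (lit φ c r).2 = (lit φ c r).1 ↔ r = j) := by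
      intro c
      by_cases hc : c < φ.length
      · obtain ⟨j, hj⟩ := (key σ c hc).1 (hσ _ (List.getElem_mem hc))
        exact ⟨j, fun _ => hj⟩
      · exact ⟨0, fun h => absurd h hc⟩
    choose ρ hρ using h
    exact ⟨σ, ρ, hρ⟩
  · rintro ⟨σ, ρ, h⟩
    refine ⟨σ, fun cl hcl => ?_⟩
    obtain ⟨c, hc, rfl⟩ := List.getElem_of_mem hcl
    exact (key σ c hc).2 ⟨ρ c, h c hc⟩

/-- The positions of the true literals. -/
def trueSet (φ : Fm) (σ : ℕ → Bool) : Finset ℤ :=
  ((Finset.range φ.length ×ˢ Finset.range 3).filter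
    fun p => σ (lit φ p.1 p.2).2 = (lit φ p.1 p.2).1).image
      fun p => (((4 * φ.length + 4) * p.1 + p.2 : ℕ) : ℤ)

theorem prod_trueSet {φ : Fm} (hφ : Bd13 φ) (σ : ℕ → Bool) :
    ∏ v ∈ Finset.range (3 * φ.length), ∏ c ∈ Finset.range φ.length, ∏ r ∈ Finset.range 3,
      (if lit φ c r = (σ v, v) then β (pos φ c r) else 1) = ∏ s ∈ trueSet φ σ, β s := by
  rw [trueSet, Finset.prod_image, Finset.prod_filter, Finset.prod_product, Finset.prod_comm]
  · refine Finset.prod_congr rfl fun c hc => ?_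
    rw [Finset.prod_comm]
    refine Finset.prod_congr rfl fun r hr => ?_
    rw [Finset.mem_range] at hc hr
    rw [Finset.prod_eq_single (lit φ c r).2, pos_eq hc hr]
    · congr 1
      rw [Prod.ext_iff]
      simp [eq_comm]
    · intro v _ hv
      rw [if_neg]
      intro h
      exact hv (by rw [h])
    · intro h
      exact absurd (Finset.mem_range.2 (lit_lt hφ hc r)) h
  · rintro ⟨c, r⟩ h1 ⟨c', r'⟩ h2 h
    simp only [Finset.coe_filter, Finset.mem_product, Finset.mem_range, Set.mem_ofPred_eq,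
      Nat.cast_inj] at h1 h2 h
    have : c = c' := by
      rcases lt_trichotomy c c' with h3 | h3 | h3
      · nlinarith [h1.1.2, h2.1.2]
      · exact h3
      · nlinarith [h1.1.2, h2.1.2]
    subst this
    have : r = r' := by omega
    rw [this]

theorem window {m c c' : ℕ} {d d' : ℤ} (hd : |d| ≤ 2 * m + 1) (hd' : |d'| ≤ 2 * m + 2)
    (h : ((4 * m + 4) * c : ℕ) + d = ((4 * m + 4) * c' : ℕ) + d') : c = c' := by
  rw [abs_le] at hd hd'
  push_cast at h
  rcases lt_trichotomy c c' with h3 | h3 | h3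
  · have : (c : ℤ) + 1 ≤ c' := by exact_mod_cast h3
    nlinarith
  · exact h3
  · have : (c' : ℤ) + 1 ≤ c := by exact_mod_cast h3
    nlinarith

theorem minst_spec {x : Fin n → G} {wt wb : Word n} (hι : Function.Injective ι)
    (hβ : ∀ j, τ * ι (β j) * τ⁻¹ = ι (β (j + 1)))
    (hd : ∀ A B : Finset ℤ, ∏ s ∈ A, β s = ∏ s ∈ B, β s → A = B) (ht : evalWord x wt = τ)
    (hb : evalWord x wb = ι (β 0)) (φ : Fm) (hφ : Bd13 φ) :
    X13 φ ↔ Reach ((minst wt wb φ).map fun p => (p.1, evalWord x p.2)) 1 := by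
  have e1 : ((minst wt wb φ).map fun p => (p.1, evalWord x p.2)) =
      ((List.range (3 * φ.length)).flatMap fun v =>
        [(true, evalWord x (occW wt wb φ (false, v))),
        (false, (evalWord x (occW wt wb φ (false, v)))⁻¹ * evalWord x (occW wt wb φ (true, v)))]) ++
      (List.range φ.length).flatMap fun c => gad τ (ι (β (pos φ c 0)))⁻¹ := by
    simp [minst, List.map_flatMap, gad, ht, evalWord_wconj hβ ht hb]
  have e2 : ∀ σ : ℕ → Bool, ((List.range (3 * φ.length)).map fun v => if σ v = true then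
      evalWord x (occW wt wb φ (true, v)) else evalWord x (occW wt wb φ (false, v))).prod =
      ι (∏ s ∈ trueSet φ σ, β s) := by
    intro σ
    rw [← prod_trueSet hφ, ← list_prod_range]
    congr 1
    refine List.map_congr_left fun v _ => ?_
    rw [← evalWord_occW hβ ht hb]
    cases σ v <;> simp
  have e3 : ∀ δ : ℕ → ℤ, (∀ c < φ.length, |δ c| ≤ 2 * φ.length + 1) →
      ∏ c ∈ Finset.range φ.length, β (pos φ c 0 + δ c) =
      ∏ s ∈ (Finset.range φ.length).image (fun c => (((4 * φ.length + 4) * c : ℕ) : ℤ) + δ c),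
        β s := by
    intro δ hδ
    rw [Finset.prod_image]
    · refine Finset.prod_congr rfl fun c hc => ?_
      rw [pos_eq (Finset.mem_range.1 hc) (by omega), add_zero]
    · intro c hc c' hc' h
      have h1 := hδ c (Finset.mem_range.1 hc)
      have h2 := hδ c' (Finset.mem_range.1 hc')
      exact window h1 (by omega) h
  rw [e1, reach_append, x13_iff]
  simp only [reach_choice, e2]
  constructor
  · rintro ⟨σ, ρ, h⟩
    refine ⟨_, _, ⟨σ, rfl⟩, reach_gads_compl hβ (fun c => pos φ c 0) φ.length ρ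
      (fun c hc => by have := (h c hc).1; omega), ?_⟩
    rw [e3 (fun c => ρ c) (fun c hc => by
      have := (h c hc).1
      rw [abs_le]; constructor <;> omega)]
    have : trueSet φ σ = (Finset.range φ.length).image
        (fun c => (((4 * φ.length + 4) * c : ℕ) : ℤ) + ρ c) := by
      ext s
      simp only [trueSet, Finset.mem_image, Finset.mem_filter, Finset.mem_product,
        Finset.mem_range, Prod.exists]
      constructor
      · rintro ⟨c, r, ⟨⟨hc, hr⟩, h1⟩, rfl⟩
        refine ⟨c, hc, ?_⟩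
        rw [((h c hc).2 r hr).1 h1]; push_cast; ring
      · rintro ⟨c, hc, rfl⟩
        refine ⟨c, ρ c, ⟨⟨hc, (h c hc).1⟩, ((h c hc).2 _ (h c hc).1).2 rfl⟩, ?_⟩
        push_cast; ring
    rw [this]; simp
  · rintro ⟨_, b, ⟨σ, rfl⟩, hb', h1⟩
    obtain ⟨δ, e, hδ, -, rfl⟩ := reach_gads_sound hβ (fun c => pos φ c 0) φ.length b hb'
    rw [e3 δ (fun c hc => (hδ c hc).trans (by omega))] at h1
    set A := trueSet φ σ with hA
    set B := (Finset.range φ.length).image
      (fun c => (((4 * φ.length + 4) * c : ℕ) : ℤ) + δ c) with hB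
    have h2 : τ ^ e = ι ((∏ s ∈ B, β s) * (∏ s ∈ A, β s)⁻¹) := by
      rw [map_mul, map_inv]
      have : τ ^ e = ι (∏ s ∈ B, β s) * (ι (∏ s ∈ A, β s))⁻¹ *
        (ι (∏ s ∈ A, β s) * ((ι (∏ s ∈ B, β s))⁻¹ * τ ^ e)) := by group
      rw [this, ← h1, mul_one]
    have h3 : e = 0 := by
      have h4 := conj_zpow hβ e 0
      rw [h2, ← map_inv, ← map_mul, ← map_mul, mul_inv_cancel_comm, zero_add] at h4
      have h5 := hd {0} {e} (by simpa using hι h4)
      exact (Finset.singleton_injective h5).symm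
    rw [h3, zpow_zero, eq_comm, map_eq_one_iff ι hι, mul_inv_eq_one] at h2
    have hAB : A = B := hd A B h2.symm
    have hmem : ∀ c < φ.length, ∀ d : ℤ, |d| ≤ 2 * φ.length + 1 →
        ((((4 * φ.length + 4) * c : ℕ) : ℤ) + d ∈ A ↔
          ∃ r < 3, σ (lit φ c r).2 = (lit φ c r).1 ∧ d = r) := by
      intro c hc d hd'
      simp only [hA, trueSet, Finset.mem_image, Finset.mem_filter, Finset.mem_product,
        Finset.mem_range, Prod.exists]
      constructor
      · rintro ⟨c', r, ⟨⟨hc', hr⟩, h4⟩, h5⟩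
        have h6 : c = c' := window (d' := r) hd' (by rw [abs_le]; constructor <;> omega)
          (by rw [← h5]; push_cast; ring)
        subst h6
        refine ⟨r, hr, h4, ?_⟩
        push_cast at h5; linarith
      · rintro ⟨r, hr, h4, rfl⟩
        exact ⟨c, r, ⟨⟨hc, hr⟩, h4⟩, by push_cast; ring⟩
    refine ⟨σ, fun c => (δ c).toNat, fun c hc => ?_⟩
    have h4 : (((4 * φ.length + 4) * c : ℕ) : ℤ) + δ c ∈ A := by
      rw [hAB]; exact Finset.mem_image_of_mem _ (Finset.mem_range.2 hc)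
    obtain ⟨r, hr, h5, h6⟩ := (hmem c hc _ ((hδ c hc).trans (by omega))).1 h4
    have h7 : (δ c).toNat = r := by omega
    simp only [h7]
    refine ⟨hr, fun r' hr' => ⟨fun h8 => ?_, fun h8 => h8 ▸ h5⟩⟩
    have h9 := (hmem c hc r' (by rw [abs_le]; constructor <;> omega)).2 ⟨r', hr', h8, rfl⟩
    rw [hAB] at h9
    obtain ⟨c', hc', h10⟩ := Finset.mem_image.1 h9
    have h11 : c' = c := window ((hδ c' (Finset.mem_range.1 hc')).trans (by omega))
      (by rw [abs_le]; constructor <;> omega) h10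
    subst h11
    omega

theorem hard_of (x : Fin n → G) (hx : Subgroup.closure (Set.range x) = ⊤)
    (hι : Function.Injective ι) (hβ : ∀ j, τ * ι (β j) * τ⁻¹ = ι (β (j + 1)))
    (hd : ∀ A B : Finset ℤ, ∏ s ∈ A, β s = ∏ s ∈ B, β s → A = B) : NPHardP (SubsetSum x) := by
  obtain ⟨wt, ht⟩ := exists_word x hx τ
  obtain ⟨wb, hb⟩ := exists_word x hx (ι (β 0))
  have h := H958NLT.hardPr_X13.trans (Pr' := fun _ => True) (Q := SubsetSum x)
    (f := fun φ => conv (minst wt wb φ)) (conv_poly.comp (minst_poly wt wb)) (fun _ _ => trivial)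
    (fun φ hφ => (minst_spec hι hβ hd ht hb φ hφ).trans (conv_spec x _).symm)
  exact h.toHardI.toNPHardP

end

end Pool.Agent.H39Z.SSP
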