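import Pool.Agent.H39Z.SSP.Memb
import Pool.Agent.H39Z.SSP.Hard

/-!
# The subset sum problem of metabelian groups
-/

namespace Pool.Agent.H39Z.SSP

open Pool.Agent.NPC

theorem Setup.hard {G : Type*} [Group G] {M : Type*} [AddCommGroup M] (S : Setup G M) {n : ℕ}
    (x : Fin n → G) (hx : Subgroup.closure (Set.range x) = ⊤)
    (hvn : ¬ ∃ H : Subgroup G, H.FiniteIndex ∧ Group.IsNilpotent H) : NPHardP (SubsetSum x) := by
  obtain ⟨τ, b, h⟩ := S.exists_distinct x hx hvn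
  let ι : Multiplicative M →* G :=
    { toFun := fun m => S.ι m.toAdd
      map_one' := S.ι_zero
      map_mul' := fun a b => S.ι_add _ _ }
  refine hard_of (ι := ι) (τ := τ) (β := fun j => Multiplicative.ofAdd (S.ρ (τ ^ j) b)) x hx
    (fun a b hab => Multiplicative.toAdd.injective (S.ι_inj hab)) (fun j => ?_) (fun A B hAB => ?_)
  · change τ * S.ι (S.ρ (τ ^ j) b) * τ⁻¹ = S.ι (S.ρ (τ ^ (j + 1)) b)
    rw [← S.conj, ← Module.End.mul_apply, ← map_mul, add_comm, zpow_one_add]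
  · apply h A B
    rw [← ofAdd_sum, ← ofAdd_sum] at hAB
    exact Multiplicative.ofAdd.injective hAB

theorem main (G : Type*) [Group G] (n : ℕ) (x : Fin n → G)
    (hx : Subgroup.closure (Set.range x) = ⊤)
    (hmet : ∀ a ∈ commutator G, ∀ b ∈ commutator G, a * b = b * a)
    (hvn : ¬ ∃ H : Subgroup G, H.FiniteIndex ∧ Group.IsNilpotent H) :
    InNP (lang (SubsetSum x)) ∧ NPHard (lang (SubsetSum x)) := by
  obtain ⟨_, ⟨S⟩⟩ := exists_setup G hmet
  obtain ⟨I, hI⟩ := S.exists_ideal x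
  exact ⟨inNP_of x I hI, S.hard x hx hvn⟩

end Pool.Agent.H39Z.SSP
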