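import Pool.Agent.H39Z.SSP.Aff
import Pool.Agent.H39Z.SSP.Grob

/-!
# Membership in `NP`
-/

namespace Pool.Agent.H39Z.SSP

open MvPolynomial Pool.Agent.NPC

section Rep

variable {σ : Type}

/-- The exponent of a monomial given as a list of variables. -/
noncomputable def expo (u : List σ) : σ →₀ ℕ := (u.map fun s => Finsupp.single s 1).sum

@[simp] theorem expo_nil : expo ([] : List σ) = 0 := rfl

@[simp] theorem expo_cons (s : σ) (u : List σ) : expo (s :: u) = Finsupp.single s 1 + expo u := by
  simp [expo]

@[simp] theorem expo_append (u v : List σ) : expo (u ++ v) = expo u + expo v := by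
  simp [expo]

theorem expo_apply [DecidableEq σ] (u : List σ) (s : σ) :
    expo u s = (u.filter fun t => decide (t = s)).length := by
  induction u with
  | nil => simp
  | cons t u ih =>
    rw [expo_cons, Finsupp.add_apply, ih, Finsupp.single_apply, List.filter_cons]
    by_cases h : t = s <;> simp [h, add_comm]

theorem degree_expo (u : List σ) : (expo u).degree = u.length := by
  induction u with
  | nil => simp
  | cons t u ih => rw [expo_cons, map_add, ih, Finsupp.degree_single, List.length_cons, add_comm]

theorem exists_expo (a : σ →₀ ℕ) : ∃ u, expo u = a := by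
  induction a using Finsupp.induction_linear with
  | zero => exact ⟨[], rfl⟩
  | add a b ha hb =>
    obtain ⟨u, rfl⟩ := ha
    obtain ⟨v, rfl⟩ := hb
    exact ⟨u ++ v, expo_append u v⟩
  | single s k =>
    refine ⟨List.replicate k s, ?_⟩
    simp [expo]

/-- The polynomial given by a list of terms. -/
noncomputable def val (p : List (ℤ × List σ)) : MvPolynomial σ ℤ :=
  (p.map fun t => monomial (expo t.2) t.1).sum

@[simp] theorem val_nil : val ([] : List (ℤ × List σ)) = 0 := rfl

@[simp] theorem val_cons (t : ℤ × List σ) (p : List (ℤ × List σ)) :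
    val (t :: p) = monomial (expo t.2) t.1 + val p := by simp [val]

@[simp] theorem val_append (p q : List (ℤ × List σ)) : val (p ++ q) = val p + val q := by
  simp [val]

theorem exists_val (g : MvPolynomial σ ℤ) : ∃ p, val p = g := by
  induction g using MvPolynomial.induction_on' with
  | monomial a c =>
    obtain ⟨u, rfl⟩ := exists_expo a
    exact ⟨[(c, u)], by simp⟩
  | add f g hf hg =>
    obtain ⟨p, rfl⟩ := hf
    obtain ⟨q, rfl⟩ := hg
    exact ⟨p ++ q, val_append p q⟩

theorem coeff_val [DecidableEq σ] (p : List (ℤ × List σ)) (a : σ →₀ ℕ) :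
    coeff a (val p) = ((p.filter fun t => decide (expo t.2 = a)).map fun t => t.1).sum := by
  induction p with
  | nil => simp
  | cons t p ih =>
    rw [val_cons, coeff_add, ih, coeff_monomial, List.filter_cons]
    by_cases h : expo t.2 = a <;> simp [h]

/-- The exponent vector of a monomial. -/
def key [DecidableEq σ] (vs : List σ) (u : List σ) : List ℕ :=
  vs.map fun s => (u.filter fun t => decide (t = s)).length

theorem key_eq_iff [DecidableEq σ] {vs : List σ} (hvs : ∀ s, s ∈ vs) (u v : List σ) :
    key vs u = key vs v ↔ expo u = expo v := by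
  simp only [key, ← expo_apply, List.map_inj_left]
  exact ⟨fun h => Finsupp.ext fun s => h s (hvs s), fun h s _ => by rw [h]⟩

/-- The zero test. -/
def test [DecidableEq σ] (vs : List σ) (p : List (ℤ × List σ)) : Bool :=
  p.all fun t => decide
    (((p.filter fun t' => decide (key vs t'.2 = key vs t.2)).map fun t' => t'.1).sum = 0)

theorem test_iff [DecidableEq σ] {vs : List σ} (hvs : ∀ s, s ∈ vs) (p : List (ℤ × List σ)) :
    test vs p = true ↔ val p = 0 := by
  simp only [test, List.all_eq_true, decide_eq_true_eq, key_eq_iff hvs, ← coeff_val]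
  constructor
  · intro h
    ext a
    by_cases ha : ∃ t ∈ p, expo t.2 = a
    · obtain ⟨t, ht, rfl⟩ := ha
      simpa using h t ht
    · rw [coeff_val, List.filter_eq_nil_iff.2 (fun t ht h => ha ⟨t, ht, by simpa using h⟩)]
      simp
  · intro h t _
    rw [h]; simp

theorem test_poly [DecidableEq σ] [TEnc σ] {α : Type} [TEnc α] (vs : List σ)
    {p : α → List (ℤ × List σ)} (hp : Poly p) : Poly (fun a => test vs (p a)) := by
  have hk : ∀ {β : Type} [TEnc β] {u : β → List σ}, Poly u → Poly (fun a => key vs (u a)) := by
    intro β _ u hu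
    unfold key
    fun_prop
  unfold test
  refine Poly.all (p := fun a t => decide ((((p a).filter fun t' =>
    decide (key vs t'.2 = key vs t.2)).map fun t' => t'.1).sum = 0)) hp ?_
  refine Poly.dec_eq (Poly.isum ?_) (NPC.Poly.const _)
  refine NPC.Poly.map (F := fun _ (t' : ℤ × List σ) => t'.1) ?_ (by fun_prop)
  refine Poly.filter (p := fun (q : α × ℤ × List σ) (t' : ℤ × List σ) =>
    decide (key vs t'.2 = key vs q.2.2)) (by fun_prop) ?_
  exact Poly.dec_eq (hk (by fun_prop)) (hk (by fun_prop))

/-- The negative of a combination of generators. -/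
def comb (gs : List (List (ℤ × List σ))) (cert : List (ℕ × ℤ × List σ)) : List (ℤ × List σ) :=
  cert.flatMap fun t => (gs.getD t.1 []).map fun s => (-(t.2.1 * s.1), t.2.2 ++ s.2)

theorem val_comb (gs : List (List (ℤ × List σ))) (cert : List (ℕ × ℤ × List σ)) :
    val (comb gs cert) =
      -(cert.map fun t => monomial (expo t.2.2) t.2.1 * val (gs.getD t.1 [])).sum := by
  have h : ∀ (c : ℤ) (u : List σ) (g : List (ℤ × List σ)),
      val (g.map fun s => (-(c * s.1), u ++ s.2)) = -(monomial (expo u) c * val g) := by
    intro c u g
    induction g with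
    | nil => simp
    | cons s g ih =>
      rw [List.map_cons, val_cons, ih, val_cons, mul_add, monomial_mul, expo_append, map_neg]
      ring
  induction cert with
  | nil => simp [comb]
  | cons t cert ih =>
    rw [comb, List.flatMap_cons, val_append, h, List.map_cons, List.sum_cons]
    rw [comb] at ih
    rw [ih]; ring

theorem comb_poly [TEnc σ] {α : Type} [TEnc α] (gs : List (List (ℤ × List σ)))
    {c : α → List (ℕ × ℤ × List σ)} (hc : Poly c) : Poly (fun a => comb gs (c a)) := by
  unfold comb
  refine Poly.flatMap (F := fun _ (t : ℕ × ℤ × List σ) =>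
    (gs.getD t.1 []).map fun s => (-(t.2.1 * s.1), t.2.2 ++ s.2)) hc ?_
  refine NPC.Poly.map (F := fun (q : α × ℕ × ℤ × List σ) (s : ℤ × List σ) =>
    (-(q.2.2.1 * s.1), q.2.2.2 ++ s.2)) (by fun_prop) ?_
  exact Poly.pair (Poly.ineg (Poly.imul (by fun_prop) (by fun_prop))) (by fun_prop)

end Rep

variable {G : Type*} [Group G] {n : ℕ}

theorem take_aux {β : Type} : ∀ (l : List β) (k j : ℕ),
    ((l.zipIdx j).filter (fun q => decide (q.2 < j + k))).map Prod.fst = l.take k := by
  intro l
  induction l with
  | nil => intro k j; simp
  | cons a l ih =>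
    intro k j
    rw [List.zipIdx_cons]
    cases k with
    | zero =>
      have h : ((a, j) :: l.zipIdx (j + 1)).filter (fun q => decide (q.2 < j + 0)) = [] := by
        rw [List.filter_eq_nil_iff]
        intro q hq
        rcases List.mem_cons.1 hq with h | h
        · rw [h]; simp
        · have := List.le_snd_of_mem_zipIdx h
          simp only [decide_eq_true_eq]
          omega
      rw [h]; simp
    | succ k =>
      rw [List.filter_cons_of_pos (by simp), List.map_cons, List.take_succ_cons]
      have e : j + (k + 1) = j + 1 + k := by omega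
      rw [e, ih k (j + 1)]

@[fun_prop] theorem take_poly {α β : Type} [TEnc α] [TEnc β] {l : α → List β} {k : α → ℕ}
    (hl : Poly l) (hk : Poly k) : Poly (fun a => (l a).take (k a)) := by
  have h : Poly (fun a => ((l a).zipIdx.filter (fun q => decide (q.2 < k a))).map Prod.fst) := by
    fun_prop
  refine h.congr fun a => ?_
  have := take_aux (l a) (k a) 0
  simpa using this

/-- The terms of the polynomial attached to a word. -/
def foxL (w : Word n) : List (ℤ × List (Vr n)) :=
  w.zipIdx.map fun p => (1, (p.1, true) :: (w.take p.2).map fun l => (l, false))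

theorem foxL_poly {α : Type} [TEnc α] {w : α → Word n} (hw : Poly w) :
    Poly (fun a => foxL (w a)) := by
  unfold foxL
  fun_prop

theorem val_foxL (w : Word n) : val (foxL w) = fox w := by
  have key : ∀ (w u : Word n), val ((w.zipIdx u.length).map fun p =>
      ((1 : ℤ), ((p.1, true) : Vr n) :: ((u ++ w).take p.2).map fun l => (l, false))) =
      monomial (expo (u.map fun l => ((l, false) : Vr n))) 1 * fox w := by
    intro w
    induction w with
    | nil => intro u; simp [fox]
    | cons l w ih =>
      intro u
      have h := ih (u ++ [l])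
      rw [List.length_append, List.length_singleton, List.append_assoc, List.singleton_append] at h
      rw [List.zipIdx_cons, List.map_cons, val_cons, h, fox]
      simp only [List.take_left', expo_cons, List.map_append, List.map_cons, List.map_nil,
        expo_append, expo_nil, add_zero, X, mul_add, ← mul_assoc, monomial_mul, mul_one]
      rw [add_comm (Finsupp.single _ _)]
  simpa [foxL] using key w []

theorem totalDegree_fox (w : Word n) : (fox w).totalDegree ≤ w.length := by
  induction w with
  | nil => simp [fox]
  | cons l w ih =>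
    rw [fox]
    refine (totalDegree_add _ _).trans (max_le ?_ ((totalDegree_mul _ _).trans ?_))
    · simp
    · simp; omega

theorem coeff_fox (w : Word n) (a : Vr n →₀ ℕ) : (coeff a (fox w)).natAbs ≤ w.length := by
  classical
  induction w generalizing a with
  | nil => simp [fox]
  | cons l w ih =>
    rw [fox, coeff_add, coeff_X_mul', coeff_X]
    refine (Int.natAbs_add_le _ _).trans ?_
    have := ih (a - Finsupp.single (l, false) 1)
    rw [List.length_cons]
    split_ifs <;> simp <;> omega

/-- The selected words. -/
def sel (L : List (Word n)) (bs : List Bool) : Word n :=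
  (L.zip bs).flatMap fun p => if p.2 = true then p.1 else []

theorem reach_sel (x : Fin n → G) (L : List (Word n)) : ∀ bs : List Bool,
    Reach (L.map fun u => (false, evalWord x u)) (evalWord x (sel L bs)) := by
  induction L with
  | nil => intro bs; simp [sel, Reach]
  | cons u L ih =>
    intro bs
    rcases bs with _ | ⟨_ | _, bs⟩
    · exact Or.inr ⟨rfl, by simpa [sel] using ih []⟩
    · exact Or.inr ⟨rfl, by simpa [sel] using ih bs⟩
    · exact Or.inl ⟨_, ih bs, by simp [sel]⟩

theorem exists_sel (x : Fin n → G) (L : List (Word n)) : ∀ g,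
    Reach (L.map fun u => (false, evalWord x u)) g →
      ∃ bs : List Bool, bs.length = L.length ∧ evalWord x (sel L bs) = g := by
  induction L with
  | nil => intro g hg; exact ⟨[], rfl, Eq.symm hg⟩
  | cons u L ih =>
    rintro g (⟨k, hk, rfl⟩ | ⟨-, hg⟩)
    · obtain ⟨bs, h1, rfl⟩ := ih k hk
      exact ⟨true :: bs, by simp [h1], by simp [sel]⟩
    · obtain ⟨bs, h1, rfl⟩ := ih g hg
      exact ⟨false :: bs, by simp [h1], by simp [sel]⟩

theorem length_sel_le (L : List (Word n)) : ∀ bs : List Bool, (sel L bs).length ≤ sz L := by
  induction L with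
  | nil => intro bs; simp [sel]
  | cons u L ih =>
    intro bs
    have h := length_lt_sz u
    rcases bs with _ | ⟨_ | _, bs⟩
    · simp [sel]
    · have := ih bs
      simp only [sel, List.zip_cons_cons, List.flatMap_cons, Bool.false_eq_true, if_false,
        List.nil_append, sz_list_cons] at this ⊢
      omega
    · have := ih bs
      simp only [sel, List.zip_cons_cons, List.flatMap_cons, if_true, List.length_append,
        sz_list_cons] at this ⊢
      omega

theorem inNP_of (x : Fin n → G) (I : Ideal (MvPolynomial (Vr n) ℤ))
    (hI : ∀ w, evalWord x w = 1 ↔ fox w ∈ I) : InNPP (SubsetSum x) := by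
  classical
  obtain ⟨B, C, hB, hcert⟩ := exists_cert I
  choose rep hrep using exists_val (σ := Vr n)
  choose ex hex using exists_expo (σ := Vr n)
  let gs := B.map rep
  have hgs : ∀ j, val (gs.getD j []) = B.getD j 0 := by
    intro j
    by_cases hj : j < B.length
    · rw [List.getD_eq_getElem _ _ hj, List.getD_eq_getElem _ _ (by simpa [gs] using hj)]
      simp [gs, hrep]
    · rw [List.getD_eq_default _ _ (by simpa [gs] using hj), List.getD_eq_default _ _ (by omega)]
      rfl
  have hBI : ∀ j, B.getD j 0 ∈ I := by
    intro j
    by_cases hj : j < B.length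
    · rw [List.getD_eq_getElem _ _ hj]; exact hB _ (List.getElem_mem hj)
    · rw [List.getD_eq_default _ _ (by omega)]; exact I.zero_mem
  let vs : List (Vr n) := Finset.univ.toList
  have hvs : ∀ s, s ∈ vs := fun s => Finset.mem_toList.2 (Finset.mem_univ s)
  let c0 : ℕ := Finset.univ.sup fun s : Vr n => sz s
  have hc0 : ∀ s : Vr n, sz s ≤ c0 := fun s =>
    Finset.le_sup (f := fun s : Vr n => sz s) (Finset.mem_univ s)
  let k := Fintype.card (Vr n)
  let P : Polynomial ℕ := (Polynomial.X + 1) ^ k
  refine inNPP_of (β := List Bool × List (ℕ × ℤ × List (Vr n)))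
    (R := fun q => test vs (foxL (sel q.1.1 q.2.1 ++ invW q.1.2) ++ comb gs q.2.2))
    (test_poly vs (Poly.append (foxL_poly ?_) (comb_poly gs (by fun_prop))))
    (Polynomial.C 4 * Polynomial.X + Polynomial.C 3 + P * (Polynomial.C (4 * B.length + 10) +
      Polynomial.C 4 * (Polynomial.X + Polynomial.C C * P) +
      Polynomial.X * Polynomial.C (c0 + 1))) ?_
  · unfold sel
    fun_prop
  rintro ⟨L, w⟩
  rw [subsetSum_iff]
  simp only [test_iff hvs, val_append, val_foxL, val_comb, hgs]
  constructor
  · intro h
    obtain ⟨bs, hbs, hb⟩ := exists_sel x L _ h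
    have h1 : fox (sel L bs ++ invW w) ∈ I := by
      rw [← hI, evalWord_append, evalWord_invW, hb, mul_inv_cancel]
    set s := sz (L, w) with hs
    have hlen : (sel L bs ++ invW w).length ≤ s := by
      have := length_sel_le L bs
      have := length_lt_sz w
      rw [hs, sz_pair, List.length_append, length_invW]
      omega
    obtain ⟨cert, h2, h3, h4⟩ := hcert s s _ h1 ((totalDegree_fox _).trans hlen)
      (fun a => (coeff_fox _ a).trans hlen)
    change cert.length ≤ (s + 1) ^ k at h2
    refine ⟨(bs, cert.map fun t => (t.1, t.2.1, ex t.2.2)), ?_, ?_⟩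
    · have e1 : sz bs ≤ 4 * s + 1 := by
        have := sz_listBool_le bs
        have := length_lt_sz L
        rw [hs, sz_pair]
        omega
      have e2 := sz_le_length_mul (cert.map fun t => (t.1, t.2.1, ex t.2.2))
        (4 * B.length + 9 + 4 * (s + C * (s + 1) ^ k) + s * (c0 + 1)) (by
          intro t ht
          obtain ⟨t, ht', rfl⟩ := List.mem_map.1 ht
          obtain ⟨h5, h6, h7⟩ := h3 t ht'
          have f1 := sz_nat_le t.1
          have f2 := Poly.size_le_self t.1
          have f3 := sz_int_le t.2.1
          have f4 : t.2.1.natAbs.size ≤ s + C * (s + 1) ^ k := by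
            rw [Nat.size_le]
            refine h6.trans_lt ?_
            rw [pow_add, pow_mul]
            exact Nat.mul_lt_mul_of_lt_of_le Nat.lt_two_pow_self
              (Nat.pow_le_pow_left Nat.lt_two_pow_self.le _) (by positivity)
          have f5 := sz_le_length_mul (ex t.2.2) c0 (fun a _ => hc0 a)
          have f6 : (ex t.2.2).length ≤ s := by rw [← degree_expo, hex]; exact h7
          have f7 := Nat.mul_le_mul_right (c0 + 1) f6
          simp only [sz_pair]
          omega)
      rw [List.length_map] at e2
      have e3 := Nat.mul_le_mul_right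
        (4 * B.length + 9 + 4 * (s + C * (s + 1) ^ k) + s * (c0 + 1) + 1) h2
      simp only [sz_pair, P, Polynomial.eval_add, Polynomial.eval_mul, Polynomial.eval_C,
        Polynomial.eval_X, Polynomial.eval_pow, Polynomial.eval_one]
      have e4 : (s + 1) ^ k * (4 * B.length + 10 + 4 * (s + C * (s + 1) ^ k) + s * (c0 + 1)) =
        (s + 1) ^ k * (4 * B.length + 9 + 4 * (s + C * (s + 1) ^ k) + s * (c0 + 1) + 1) := by ring
      rw [e4]
      omega
    · simp only [List.map_map, Function.comp_def, hex]
      rw [← h4, add_neg_cancel]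
  · rintro ⟨⟨bs, cert⟩, -, h⟩
    rw [add_neg_eq_zero] at h
    have h1 : fox (sel L bs ++ invW w) ∈ I := by
      rw [h]
      refine list_sum_mem ?_
      intro y hy
      obtain ⟨t, -, rfl⟩ := List.mem_map.1 hy
      exact I.mul_mem_left _ (hBI _)
    rw [← hI, evalWord_append, evalWord_invW, mul_inv_eq_one] at h1
    rw [← h1]
    exact reach_sel x L bs

end Pool.Agent.H39Z.SSP
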