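import Pool.Agent.H39Z.SSP.Alg

/-!
# Metabelian groups that are not virtually nilpotent
-/

namespace Pool.Agent.H39Z.SSP

open Polynomial

open scoped commutatorElement

/-- The commutator subgroup of a metabelian group, as a module. -/
structure Setup (G : Type*) [Group G] (M : Type*) [AddCommGroup M] where
  /-- the inclusion -/
  ι : M → G
  ι_add : ∀ a b, ι (a + b) = ι a * ι b
  ι_inj : Function.Injective ι
  /-- the action by conjugation -/
  ρ : G →* Module.End ℤ M
  conj : ∀ g m, ι (ρ g m) = g * ι m * g⁻¹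
  range : ∀ g, g ∈ commutator G ↔ ∃ m, ι m = g

theorem exists_setup (G : Type*) [Group G]
    (h : ∀ a ∈ commutator G, ∀ b ∈ commutator G, a * b = b * a) :
    ∃ (_ : AddCommGroup (Additive (commutator G))), Nonempty (Setup G (Additive (commutator G))) := by
  let _ : CommGroup (commutator G) :=
    { (inferInstance : Group (commutator G)) with
      mul_comm := fun a b => Subtype.ext (h a a.2 b b.2) }
  refine ⟨inferInstance, ⟨
    { ι := fun m => (m.toMul : commutator G)
      ι_add := fun a b => rfl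
      ι_inj := fun a b hab => Additive.toMul.injective (Subtype.ext hab)
      ρ :=
        { toFun := fun g => (MonoidHom.toAdditive
            (MulAut.conjNormal (H := commutator G) g).toMonoidHom).toIntLinearMap
          map_one' := by ext; simp
          map_mul' := fun g k => by ext; simp [mul_assoc] }
      conj := fun g m => rfl
      range := fun g => ⟨fun hg => ⟨Additive.ofMul ⟨g, hg⟩, rfl⟩, ?_⟩ }⟩⟩
  rintro ⟨m, rfl⟩
  exact m.toMul.2

namespace Setup

variable {G : Type*} [Group G] {M : Type*} [AddCommGroup M] (S : Setup G M)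

theorem ι_zero : S.ι 0 = 1 := by
  have := S.ι_add 0 0
  rw [add_zero] at this
  exact left_eq_mul.1 this

theorem ι_neg (a : M) : S.ι (-a) = (S.ι a)⁻¹ := by
  have := S.ι_add a (-a)
  rw [add_neg_cancel, S.ι_zero] at this
  exact (inv_eq_of_mul_eq_one_right this.symm).symm

theorem ι_eq_one {a : M} : S.ι a = 1 ↔ a = 0 := by
  rw [← S.ι_zero]; exact S.ι_inj.eq_iff

theorem ρ_ι (a : M) : S.ρ (S.ι a) = 1 := by
  ext m
  apply S.ι_inj
  rw [S.conj, ← S.ι_add, ← S.ι_neg, ← S.ι_add]
  simp

theorem comm_le_ker : commutator G ≤ S.ρ.ker := by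
  intro g hg
  obtain ⟨m, rfl⟩ := (S.range g).1 hg
  exact S.ρ_ι m

theorem ρ_comm (g h : G) : Commute (S.ρ g) (S.ρ h) := by
  have h1 : S.ρ ⁅g, h⁆ = 1 :=
    S.comm_le_ker (Subgroup.commutator_mem_commutator (Subgroup.mem_top _) (Subgroup.mem_top _))
  have h2 : g * h = ⁅g, h⁆ * (h * g) := by rw [commutatorElement_def]; group
  change S.ρ g * S.ρ h = S.ρ h * S.ρ g
  rw [← map_mul, ← map_mul, h2, map_mul, h1, one_mul]

/-- The subgroup of `G` given by a subgroup of `M`. -/
def sub (W : AddSubgroup M) : Subgroup G where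
  carrier := {g | ∃ m ∈ W, S.ι m = g}
  one_mem' := ⟨0, W.zero_mem, S.ι_zero⟩
  mul_mem' := by
    rintro _ _ ⟨a, ha, rfl⟩ ⟨b, hb, rfl⟩
    exact ⟨a + b, W.add_mem ha hb, S.ι_add a b⟩
  inv_mem' := by
    rintro _ ⟨a, ha, rfl⟩
    exact ⟨-a, W.neg_mem ha, S.ι_neg a⟩

theorem mem_sub {W : AddSubgroup M} {g : G} : g ∈ S.sub W ↔ ∃ m ∈ W, S.ι m = g := Iff.rfl

theorem virtNilp {n : ℕ} (x : Fin n → G) (hx : Subgroup.closure (Set.range x) = ⊤) {k m : ℕ}
    (hk : 0 < k) (h : ∀ i, (S.ρ (x i) ^ k - 1) ^ m = 0) :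
    ∃ H : Subgroup G, H.FiniteIndex ∧ Group.IsNilpotent H := by
  classical
  have : Group.FG G := Group.fg_iff.2 ⟨_, hx, Set.finite_range x⟩
  have hsurj : Function.Surjective (Abelianization.of : G →* Abelianization G) :=
    fun q => Quot.exists_rep q
  have : Group.FG (Abelianization G) := Group.fg_of_surjective hsurj
  let ρ' : Abelianization G →* Module.End ℤ M := QuotientGroup.lift (commutator G) S.ρ S.comm_le_ker
  let R := MonoidAlgebra ℤ (Abelianization G)
  let φ : R →ₐ[ℤ] Module.End ℤ M := MonoidAlgebra.lift ℤ (Module.End ℤ M) (Abelianization G) ρ'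
  let u : G →* R := (MonoidAlgebra.of ℤ (Abelianization G)).comp Abelianization.of
  have hu : ∀ g, φ (u g) = S.ρ g := fun g => by
    exact (MonoidAlgebra.lift_of ρ' (Abelianization.of g)).trans rfl
  let J : Ideal R := Ideal.span (Set.range fun i => u (x i) ^ k - 1)
  have hJ : ∀ g, u g ^ k - 1 ∈ J := by
    let ψ : G →* R ⧸ J := (powMonoidHom k).comp ((Ideal.Quotient.mk J).toMonoidHom.comp u)
    have h1 : ψ = 1 := by
      refine MonoidHom.eq_of_eqOn_dense hx ?_
      rintro _ ⟨i, rfl⟩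
      change (Ideal.Quotient.mk J (u (x i))) ^ k = 1
      rw [← map_pow, ← map_one (Ideal.Quotient.mk J), Ideal.Quotient.eq]
      exact Ideal.subset_span ⟨i, rfl⟩
    intro g
    have h2 : (Ideal.Quotient.mk J (u g)) ^ k = 1 := DFunLike.congr_fun h1 g
    rw [← map_pow, ← map_one (Ideal.Quotient.mk J), Ideal.Quotient.eq] at h2
    exact h2
  obtain ⟨N, hN⟩ : ∃ N : ℕ, J ^ N ≤ RingHom.ker φ.toRingHom := by
    refine Ideal.exists_pow_le_of_le_radical_of_fg ?_ (Submodule.fg_span (Set.finite_range _))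
    rw [Ideal.span_le]
    rintro _ ⟨i, rfl⟩
    refine ⟨m, ?_⟩
    rw [RingHom.mem_ker]
    change φ _ = 0
    rw [map_pow, map_sub, map_pow, map_one, hu, h i]
  let H : Subgroup G := (powMonoidHom (α := Abelianization G) k).range.comap Abelianization.of
  have hfi := Subgroup.finiteIndex_range_powMonoidHom_of_fg (Abelianization G) hk.ne'
  refine ⟨H, ⟨?_⟩, ?_⟩
  · rw [Subgroup.index_comap_of_surjective _ hsurj]
    exact hfi.index_ne_zero
  have hH : ∀ g ∈ H, u g - 1 ∈ J := by
    rintro g ⟨q, hq⟩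
    obtain ⟨g', rfl⟩ := hsurj q
    have : u g = u g' ^ k := by
      simp only [u, MonoidHom.comp_apply]
      rw [← hq, ← map_pow]; rfl
    rw [this]; exact hJ g'
  let W : ℕ → AddSubgroup M := fun j =>
    { carrier := {a | ∀ r ∈ J ^ (N - j), φ r a = 0}
      zero_mem' := fun r _ => map_zero _
      add_mem' := fun ha hb r hr => by rw [map_add, ha r hr, hb r hr, add_zero]
      neg_mem' := fun ha r hr => by rw [map_neg, ha r hr, neg_zero] }
  let D : ℕ → Subgroup H := fun j => match j with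
    | 0 => ⊤
    | j + 1 => (S.sub (W j)).subgroupOf H
  rw [Subgroup.nilpotent_iff_finite_descending_central_series]
  refine ⟨N + 1, D, ⟨rfl, ?_⟩, ?_⟩
  · intro y j hy g
    cases j with
    | zero =>
      obtain ⟨a, ha⟩ := (S.range ⁅(y : G), (g : G)⁆).1
        (Subgroup.commutator_mem_commutator (Subgroup.mem_top _) (Subgroup.mem_top _))
      refine ⟨a, fun r hr => ?_, ha⟩
      have : φ r = 0 := hN hr
      rw [this]; rfl
    | succ j =>
      obtain ⟨a, ha, hay⟩ := hy
      refine ⟨-(φ (u g - 1) a), fun r hr => ?_, ?_⟩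
      · rw [map_neg, neg_eq_zero, ← Module.End.mul_apply, ← map_mul]
        apply ha
        have h1 : r * (u g - 1) ∈ J ^ (N - (j + 1) + 1) := by
          rw [pow_succ]
          exact Ideal.mul_mem_mul hr (hH g g.2)
        exact Ideal.pow_le_pow_right (by omega) h1
      · rw [map_sub, hu, map_one, LinearMap.sub_apply, neg_sub, sub_eq_add_neg, S.ι_add, S.ι_neg,
          S.conj]
        change S.ι a * _ = (y : G) * g * (y : G)⁻¹ * (g : G)⁻¹
        have : S.ι a = (y : G) := hay
        rw [this]; group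
  · rw [eq_bot_iff]
    rintro y ⟨a, ha, hay⟩
    have h1 := ha 1 (by simp)
    rw [map_one] at h1
    have h2 : a = 0 := h1
    rw [h2, S.ι_zero] at hay
    exact Subtype.ext hay.symm

theorem comm_le_of_gen {n : ℕ} (x : Fin n → G) (hx : Subgroup.closure (Set.range x) = ⊤)
    (N : Subgroup G) [N.Normal] (h : ∀ i j, ⁅x i, x j⁆ ∈ N) : commutator G ≤ N := by
  have key : ∀ g h : G, ⁅g, h⁆ ∈ N ↔ Commute (QuotientGroup.mk' N g) (QuotientGroup.mk' N h) := by
    intro g h
    rw [← commutatorElement_eq_one_iff_commute, ← map_commutatorElement, QuotientGroup.mk'_apply,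
      QuotientGroup.eq_one_iff]
  have cent : ∀ y : G, (∀ i, Commute (QuotientGroup.mk' N (x i)) (QuotientGroup.mk' N y)) →
      ∀ g, Commute (QuotientGroup.mk' N g) (QuotientGroup.mk' N y) := by
    intro y hy g
    have hg : g ∈ Subgroup.closure (Set.range x) := hx ▸ Subgroup.mem_top g
    induction hg using Subgroup.closure_induction with
    | mem z hz => obtain ⟨i, rfl⟩ := hz; exact hy i
    | one => rw [map_one]; exact Commute.one_left _
    | mul a b _ _ ha hb => rw [map_mul]; exact ha.mul_left hb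
    | inv a _ ha => rw [map_inv]; exact ha.inv_left
  rw [commutator, Subgroup.commutator_le]
  intro g _ h' _
  rw [key]
  exact cent h' (fun i => (cent (x i) (fun j => (key _ _).1 (h j i)) h').symm) g

theorem exists_bad {n : ℕ} (x : Fin n → G) (hx : Subgroup.closure (Set.range x) = ⊤)
    (hvn : ¬ ∃ H : Subgroup G, H.FiniteIndex ∧ Group.IsNilpotent H) :
    ∃ (t : G) (a : M), ∀ k m : ℕ, 0 < k → ((S.ρ t ^ k - 1) ^ m) a ≠ 0 := by
  classical
  by_contra hcon
  push Not at hcon
  choose k m hk hkm using hcon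
  have hc : ∀ i j, ∃ a, S.ι a = ⁅x i, x j⁆ := fun i j => (S.range _).1
    (Subgroup.commutator_mem_commutator (Subgroup.mem_top _) (Subgroup.mem_top _))
  choose c hc using hc
  let K : ℕ := ∏ p : Fin n × Fin n × Fin n, k (x p.1) (c p.2.1 p.2.2)
  let L : ℕ := Finset.univ.sup fun p : Fin n × Fin n × Fin n => m (x p.1) (c p.2.1 p.2.2)
  have hK : 0 < K := Finset.prod_pos fun p _ => hk _ _
  refine hvn (S.virtNilp x hx (m := L) hK fun i => ?_)
  set T := (S.ρ (x i) ^ K - 1) ^ L with hT
  have hkill : ∀ j l, T (c j l) = 0 := by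
    intro j l
    obtain ⟨e, he⟩ : k (x i) (c j l) ∣ K :=
      Finset.dvd_prod_of_mem (fun p : Fin n × Fin n × Fin n => k (x p.1) (c p.2.1 p.2.2))
        (Finset.mem_univ (i, j, l))
    have hL : m (x i) (c j l) ≤ L :=
      Finset.le_sup (f := fun p : Fin n × Fin n × Fin n => m (x p.1) (c p.2.1 p.2.2))
        (Finset.mem_univ (i, j, l))
    have hd : ((X ^ k (x i) (c j l) - 1) ^ m (x i) (c j l) : ℤ[X]) ∣ (X ^ K - 1) ^ L := by
      refine (pow_dvd_pow _ hL).trans (pow_dvd_pow_of_dvd ?_ L)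
      rw [he, pow_mul]; exact sub_one_dvd_pow_sub_one _ _
    obtain ⟨q, hq⟩ := hd
    have h1 := congrArg (aeval (S.ρ (x i))) hq
    rw [mul_comm, map_mul] at h1
    simp only [map_pow, map_sub, aeval_X, map_one] at h1
    rw [hT, h1, Module.End.mul_apply, hkm, map_zero]
  have hTc : ∀ g, Commute (S.ρ g) T := fun g =>
    (((S.ρ_comm g (x i)).pow_right K).sub_right (Commute.one_right _)).pow_right L
  have : (S.sub (LinearMap.ker T).toAddSubgroup).Normal := by
    constructor
    rintro _ ⟨a, ha, rfl⟩ g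
    refine ⟨S.ρ g a, ?_, S.conj g a⟩
    have ha' : T a = 0 := ha
    change T (S.ρ g a) = 0
    rw [← Module.End.mul_apply, ← (hTc g).eq, Module.End.mul_apply, ha', map_zero]
  have hle := comm_le_of_gen x hx (S.sub (LinearMap.ker T).toAddSubgroup)
    (fun j l => ⟨c j l, hkill j l, hc j l⟩)
  ext a
  obtain ⟨b, hb, hba⟩ := hle ((S.range _).2 ⟨a, rfl⟩)
  rw [S.ι_inj hba] at hb
  exact hb

theorem exists_distinct_nat {n : ℕ} (x : Fin n → G) (hx : Subgroup.closure (Set.range x) = ⊤)
    (hvn : ¬ ∃ H : Subgroup G, H.FiniteIndex ∧ Group.IsNilpotent H) :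
    ∃ (τ : G) (b : M), ∀ A B : Finset ℕ,
      ∑ s ∈ A, S.ρ (τ ^ s) b = ∑ s ∈ B, S.ρ (τ ^ s) b → A = B := by
  classical
  obtain ⟨t, a, ha⟩ := S.exists_bad x hx hvn
  let _ : Module ℤ[X] M := Module.compHom M (aeval (R := ℤ) (S.ρ t)).toRingHom
  have hsm : ∀ (f : ℤ[X]) (b : M), f • b = aeval (S.ρ t) f b := fun _ _ => rfl
  obtain ⟨b, N, hN, hb⟩ := exists_indep_elt (M := M) (by
      intro b hb
      rw [hsm, aeval_X] at hb
      have := congrArg (S.ρ t⁻¹) hb
      rwa [← Module.End.mul_apply, ← map_mul, inv_mul_cancel, map_one, map_zero] at this) a (by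
      intro k m hk
      rw [hsm]
      simpa using ha k m hk)
  refine ⟨t ^ N, b, fun A B hAB => ?_⟩
  have hco : ∀ i, ((∑ s ∈ A, X ^ s - ∑ s ∈ B, X ^ s : ℤ[X])).coeff i =
      (if i ∈ A then 1 else 0) - (if i ∈ B then 1 else 0) := by
    intro i
    simp [coeff_X_pow]
  have h0 := hb (∑ s ∈ A, X ^ s - ∑ s ∈ B, X ^ s) (by
      intro i
      rw [hco]
      split_ifs <;> simp) (by
      rw [hsm]
      simp only [sub_comp, Polynomial.sum_comp, pow_comp, X_comp, map_sub, map_sum, map_pow,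
        aeval_X, LinearMap.sub_apply, LinearMap.sum_apply] at hAB ⊢
      rw [hAB, sub_self])
  ext i
  have := hco i
  rw [h0, coeff_zero] at this
  by_cases h1 : i ∈ A <;> by_cases h2 : i ∈ B
  · exact iff_of_true h1 h2
  · rw [if_pos h1, if_neg h2] at this; omega
  · rw [if_neg h1, if_pos h2] at this; omega
  · exact iff_of_false h1 h2

theorem exists_distinct {n : ℕ} (x : Fin n → G) (hx : Subgroup.closure (Set.range x) = ⊤)
    (hvn : ¬ ∃ H : Subgroup G, H.FiniteIndex ∧ Group.IsNilpotent H) :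
    ∃ (τ : G) (b : M), ∀ A B : Finset ℤ,
      ∑ s ∈ A, S.ρ (τ ^ s) b = ∑ s ∈ B, S.ρ (τ ^ s) b → A = B := by
  classical
  obtain ⟨τ, b, h⟩ := S.exists_distinct_nat x hx hvn
  refine ⟨τ, b, fun A B hAB => ?_⟩
  obtain ⟨D, hD⟩ := (A ∪ B).bddBelow
  have hD' : ∀ s ∈ A ∪ B, D ≤ s := fun s hs => hD (Finset.mem_coe.2 hs)
  have key : ∀ C : Finset ℤ, C ⊆ A ∪ B → ∑ s ∈ C.image (fun s => (s - D).toNat), S.ρ (τ ^ s) b =
      S.ρ (τ ^ (-D)) (∑ s ∈ C, S.ρ (τ ^ s) b) := by
    intro C hC
    rw [Finset.sum_image, map_sum]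
    · refine Finset.sum_congr rfl fun s hs => ?_
      rw [← Module.End.mul_apply, ← map_mul, ← zpow_add, ← zpow_natCast]
      have := hD' s (hC hs)
      congr 3
      omega
    · intro s hs s' hs' hss
      have := hD' s (hC hs)
      have := hD' s' (hC hs')
      simp only at hss
      omega
  have h1 := h (A.image fun s => (s - D).toNat) (B.image fun s => (s - D).toNat) (by
    rw [key A Finset.subset_union_left, key B Finset.subset_union_right, hAB])
  have h2 : ∀ C C' : Finset ℤ, C ⊆ A ∪ B → C' ⊆ A ∪ B →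
      C.image (fun s => (s - D).toNat) = C'.image (fun s => (s - D).toNat) → C ⊆ C' := by
    intro C C' hC hC' h s hs
    have h3 : (s - D).toNat ∈ C'.image (fun s => (s - D).toNat) :=
      h ▸ Finset.mem_image_of_mem _ hs
    obtain ⟨s', hs', hss⟩ := Finset.mem_image.1 h3
    have := hD' s (hC hs)
    have := hD' s' (hC' hs')
    have : s = s' := by omega
    rwa [this]
  exact Finset.Subset.antisymm (h2 A B Finset.subset_union_left Finset.subset_union_right h1)
    (h2 B A Finset.subset_union_right Finset.subset_union_left h1.symm)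

end Setup

end Pool.Agent.H39Z.SSP
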